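import Mathlib

open MeasureTheory Metric Filter Topology
open scoped ContDiff ENNReal

namespace Pool.Agent.Lib.MP_105042_an

/-- partial derivative in direction `a` -/
noncomputable def pd {n : ℕ} (a : Fin n) (w : EuclideanSpace ℝ (Fin n) → ℝ) (x : EuclideanSpace ℝ (Fin n)) : ℝ :=
  fderiv ℝ w x (EuclideanSpace.single a 1)

/-- Laplacian -/
noncomputable def lap {n : ℕ} (w : EuclideanSpace ℝ (Fin n) → ℝ) (x : EuclideanSpace ℝ (Fin n)) : ℝ :=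
  ∑ a, pd a (pd a w) x

/-- `R = λ^(2N) + |x|^(2N)` -/
noncomputable def Rf {n : ℕ} (N : ℕ) (lam : ℝ) (x : EuclideanSpace ℝ (Fin n)) : ℝ :=
  lam ^ (2 * N) + (‖x‖ ^ 2) ^ N

noncomputable def bub {n : ℕ} (N : ℕ) (κ : ℕ) (m : ℝ) (P : EuclideanSpace ℝ (Fin n) → ℝ) (lam : ℝ)
    (x : EuclideanSpace ℝ (Fin n)) : ℝ :=
  lam ^ κ * (P x * (Rf N lam x) ^ (-m))

section
variable {n : ℕ} {N κ : ℕ} {m lam : ℝ} {P : EuclideanSpace ℝ (Fin n) → ℝ}
  {L : EuclideanSpace ℝ (Fin n) →L[ℝ] ℝ}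

lemma Rf_pos {x : EuclideanSpace ℝ (Fin n)} (h : lam ≠ 0 ∨ x ≠ 0) : 0 < Rf N lam x := by
  unfold Rf
  rcases h with h | h
  · have : 0 < lam ^ (2 * N) := by
      rw [pow_mul]; positivity
    positivity
  · have : 0 < ‖x‖ := norm_pos_iff.mpr h
    have h2 : 0 ≤ lam ^ (2 * N) := by rw [pow_mul]; positivity
    positivity

lemma hasFDerivAt_Rf (x : EuclideanSpace ℝ (Fin n)) :
    HasFDerivAt (Rf N lam) ((2 * N * (‖x‖ ^ 2) ^ (N - 1)) • innerSL ℝ x) x := by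
  have h1 : HasFDerivAt (fun y : EuclideanSpace ℝ (Fin n) => ‖y‖ ^ 2) (2 • innerSL ℝ x) x := by
    simpa using (hasFDerivAt_id x).norm_sq
  have h2 := (h1.pow N).const_add (lam ^ (2 * N))
  unfold Rf
  refine h2.congr_fderiv ?_
  ext v
  simp
  ring

lemma hasFDerivAt_bub (hP : ∀ x, HasFDerivAt P L x) {x : EuclideanSpace ℝ (Fin n)}
    (h : lam ≠ 0 ∨ x ≠ 0) :
    HasFDerivAt (bub N κ m P lam)
      (lam ^ κ • ((Rf N lam x) ^ (-m) • L
        - (2 * m * N * P x * (‖x‖ ^ 2) ^ (N - 1) * (Rf N lam x) ^ (-m - 1)) • innerSL ℝ x)) x := by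
  have hR := Rf_pos (N := N) h
  have h1 := (hasFDerivAt_Rf (N := N) (lam := lam) x).rpow_const (p := -m) (Or.inl hR.ne')
  have h2 := ((hP x).mul h1).const_mul (lam ^ κ)
  unfold bub
  refine h2.congr_fderiv ?_
  ext v
  simp
  ring

lemma pd_bub (hP : ∀ x, HasFDerivAt P L x) {x : EuclideanSpace ℝ (Fin n)}
    (h : lam ≠ 0 ∨ x ≠ 0) (a : Fin n) :
    pd a (bub N κ m P lam) x =
      lam ^ κ * (L (EuclideanSpace.single a 1) * (Rf N lam x) ^ (-m)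
        - (2 * m * N * P x * (‖x‖ ^ 2) ^ (N - 1) * (Rf N lam x) ^ (-m - 1)) * x a) := by
  unfold pd
  rw [(hasFDerivAt_bub hP h).fderiv]
  have hin : (innerSL ℝ x) (EuclideanSpace.single a (1:ℝ)) = x a := by
    simp [PiLp.inner_apply]
  simp only [smul_apply, sub_apply, smul_eq_mul, hin]
  ring

lemma pd_pd_bub (hP : ∀ x, HasFDerivAt P L x) {x : EuclideanSpace ℝ (Fin n)}
    (h : lam ≠ 0 ∨ x ≠ 0) (a : Fin n) :
    pd a (pd a (bub N κ m P lam)) x =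
      lam ^ κ * (- 4 * m * N * L (EuclideanSpace.single a 1) * x a * (‖x‖ ^ 2) ^ (N - 1) * (Rf N lam x) ^ (-m - 1)
        - 4 * m * N * (N - 1 : ℕ) * P x * (x a) ^ 2 * (‖x‖ ^ 2) ^ (N - 1 - 1) * (Rf N lam x) ^ (-m - 1)
        + 4 * m * (m + 1) * N ^ 2 * P x * (x a) ^ 2 * (‖x‖ ^ 2) ^ (N - 1) * (‖x‖ ^ 2) ^ (N - 1)
            * (Rf N lam x) ^ (-m - 1 - 1)
        - 2 * m * N * P x * (‖x‖ ^ 2) ^ (N - 1) * (Rf N lam x) ^ (-m - 1)) := by
  have hR := Rf_pos (N := N) h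
  have hev : ∀ᶠ y in 𝓝 x, lam ≠ 0 ∨ y ≠ 0 := by
    rcases h with h | h
    · exact Filter.Eventually.of_forall fun _ => Or.inl h
    · filter_upwards [isOpen_ne.mem_nhds h] with y hy using Or.inr hy
  have heq : pd a (bub N κ m P lam) =ᶠ[𝓝 x] fun x => 
      lam ^ κ * (L (EuclideanSpace.single a 1) * (Rf N lam x) ^ (-m)
        - (2 * m * N * P x * (‖x‖ ^ 2) ^ (N - 1) * (Rf N lam x) ^ (-m - 1)) * x a) := by
    filter_upwards [hev] with y hy using pd_bub hP hy a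
  have hsq : HasFDerivAt (fun y : EuclideanSpace ℝ (Fin n) => ‖y‖ ^ 2) (2 • innerSL ℝ x) x := by
    simpa using (hasFDerivAt_id x).norm_sq
  have hRd := hasFDerivAt_Rf (N := N) (lam := lam) x
  have h1 := hRd.rpow_const (p := -m) (Or.inl hR.ne')
  have h2 := hRd.rpow_const (p := -m - 1) (Or.inl hR.ne')
  have hxa : HasFDerivAt (fun y : EuclideanSpace ℝ (Fin n) => y a)
      (EuclideanSpace.proj a : EuclideanSpace ℝ (Fin n) →L[ℝ] ℝ) x :=
    (EuclideanSpace.proj a : EuclideanSpace ℝ (Fin n) →L[ℝ] ℝ).hasFDerivAt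
  have hin : (innerSL ℝ x) (EuclideanSpace.single a (1:ℝ)) = x a := by
    simp [PiLp.inner_apply]
  have h3 := ((h1.const_mul (L (EuclideanSpace.single a 1))).sub
    ((((((hP x).const_mul (2 * m * N)).mul (hsq.pow (N-1))).mul h2)).mul hxa)).const_mul (lam ^ κ)
  have h4 := h3.congr_of_eventuallyEq (f₁ := pd a (bub N κ m P lam)) heq
  have hpr : (EuclideanSpace.proj a : EuclideanSpace ℝ (Fin n) →L[ℝ] ℝ)
      (EuclideanSpace.single a (1:ℝ)) = 1 := by simp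
  rw [pd, h4.fderiv]
  simp only [smul_apply, sub_apply, add_apply, smul_eq_mul, hin, hpr,
    nsmul_eq_mul, Pi.mul_apply]
  push_cast
  ring

lemma sum_sq (x : EuclideanSpace ℝ (Fin n)) : ∑ a, (x a) ^ 2 = ‖x‖ ^ 2 :=
  (EuclideanSpace.real_norm_sq_eq x).symm

lemma sum_L (x : EuclideanSpace ℝ (Fin n)) :
    ∑ a, L (EuclideanSpace.single a 1) * x a = L x := by
  have hx : x = ∑ a, x a • EuclideanSpace.single a (1:ℝ) := by
    ext b
    simp [Pi.single_apply]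
  conv_rhs => rw [hx]
  rw [map_sum]
  simp [mul_comm]

/-- the coefficient field -/
noncomputable def Xf {n : ℕ} (N : ℕ) (lam : ℝ) (x : EuclideanSpace ℝ (Fin n)) : ℝ :=
  N ^ 2 * lam ^ (2 * N) * (‖x‖ ^ 2) ^ (N - 1) * (Rf N lam x) ^ (-2 : ℝ)

lemma lap_bub {d : ℝ} (hN : 1 ≤ N) (hP : ∀ x, HasFDerivAt P L x) (hL : ∀ x, L x = d * P x)
    (hm : 2 * N * m = n - 2 + 2 * d) (hn : n = N + 2)
    {x : EuclideanSpace ℝ (Fin n)} (h : lam ≠ 0 ∨ x ≠ 0) :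
    lap (bub N κ m P lam) x = - (4 * m * (m + 1)) * Xf N lam x * bub N κ m P lam x := by
  have hR := Rf_pos (N := N) h
  unfold lap
  simp_rw [pd_pd_bub hP h]
  set s := ‖x‖ ^ 2 with hs
  set R := Rf N lam x with hRdef
  have hRs : R = lam ^ (2 * N) + s ^ N := rfl
  obtain ⟨M, rfl⟩ : ∃ M, N = M + 1 := ⟨N - 1, by omega⟩
  have e0 : ∑ a : Fin n, (lam ^ κ * (- 4 * m * (M + 1 : ℕ) * L (EuclideanSpace.single a 1) * x a * s ^ (M + 1 - 1) * R ^ (-m - 1)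
        - 4 * m * (M + 1 : ℕ) * (M + 1 - 1 : ℕ) * P x * (x a) ^ 2 * s ^ (M + 1 - 1 - 1) * R ^ (-m - 1)
        + 4 * m * (m + 1) * (M + 1 : ℕ) ^ 2 * P x * (x a) ^ 2 * s ^ (M + 1 - 1) * s ^ (M + 1 - 1)
            * R ^ (-m - 1 - 1)
        - 2 * m * (M + 1 : ℕ) * P x * s ^ (M + 1 - 1) * R ^ (-m - 1)))
      = lam ^ κ * (- 4 * m * (M + 1 : ℕ) * (L x) * s ^ M * R ^ (-m - 1)
        - 4 * m * (M + 1 : ℕ) * M * P x * s * s ^ (M - 1) * R ^ (-m - 1)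
        + 4 * m * (m + 1) * (M + 1 : ℕ) ^ 2 * P x * s * s ^ M * s ^ M
            * R ^ (-m - 1 - 1)
        - n * (2 * m * (M + 1 : ℕ) * P x * s ^ M * R ^ (-m - 1))) := by
    have hsum : ∀ (A B C : ℝ), ∑ a : Fin n, (A * (L (EuclideanSpace.single a 1) * x a) + B * (x a) ^ 2 + C)
        = A * L x + B * s + n * C := by
      intro A B C
      rw [Finset.sum_add_distrib, Finset.sum_add_distrib, ← Finset.mul_sum, ← Finset.mul_sum,
        sum_L, sum_sq, Finset.sum_const, Finset.card_univ, Fintype.card_fin, nsmul_eq_mul]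
    have := hsum (lam ^ κ * (- 4 * m * (M + 1 : ℕ) * s ^ M * R ^ (-m - 1)))
      (lam ^ κ * (- 4 * m * (M + 1 : ℕ) * M * P x * s ^ (M - 1) * R ^ (-m - 1)
        + 4 * m * (m + 1) * (M + 1 : ℕ) ^ 2 * P x * s ^ M * s ^ M * R ^ (-m - 1 - 1)))
      (lam ^ κ * (- (2 * m * (M + 1 : ℕ) * P x * s ^ M * R ^ (-m - 1))))
    rw [show lam ^ κ * (- 4 * m * (M + 1 : ℕ) * (L x) * s ^ M * R ^ (-m - 1)
        - 4 * m * (M + 1 : ℕ) * M * P x * s * s ^ (M - 1) * R ^ (-m - 1)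
        + 4 * m * (m + 1) * (M + 1 : ℕ) ^ 2 * P x * s * s ^ M * s ^ M
            * R ^ (-m - 1 - 1)
        - n * (2 * m * (M + 1 : ℕ) * P x * s ^ M * R ^ (-m - 1))) = 
        (lam ^ κ * (- 4 * m * (M + 1 : ℕ) * s ^ M * R ^ (-m - 1))) * L x
        + (lam ^ κ * (- 4 * m * (M + 1 : ℕ) * M * P x * s ^ (M - 1) * R ^ (-m - 1)
        + 4 * m * (m + 1) * (M + 1 : ℕ) ^ 2 * P x * s ^ M * s ^ M * R ^ (-m - 1 - 1))) * s
        + n * (lam ^ κ * (- (2 * m * (M + 1 : ℕ) * P x * s ^ M * R ^ (-m - 1)))) by ring, ← this]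
    refine Finset.sum_congr rfl fun a _ => ?_
    simp only [Nat.add_sub_cancel]
    ring
  rw [e0, hL]
  have hss : (M : ℝ) * (s * s ^ (M - 1)) = M * s ^ M := by
    rcases M with _ | M
    · simp
    · rw [Nat.add_sub_cancel, pow_succ]; ring
  have hR1 : R ^ (-m - 1) = R ^ (-m - 1 - 1) * R := by
    rw [← Real.rpow_add_one hR.ne']; congr 1; ring
  have hR2 : R ^ (-m - 1 - 1) = R ^ (-2 : ℝ) * R ^ (-m) := by
    rw [← Real.rpow_add hR]; congr 1; ring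
  have hb : bub (M + 1) κ m P lam x = lam ^ κ * (P x * R ^ (-m)) := rfl
  have hX : Xf (M + 1) lam x = (M + 1 : ℕ) ^ 2 * lam ^ (2 * (M + 1)) * s ^ M * R ^ (-2 : ℝ) := rfl
  rw [hb, hX]
  have key : R * (2 * d + 2 * M + n) - 2 * (m + 1) * (M + 1) * s * s ^ M = 2 * (m + 1) * (M + 1) * lam ^ (2 * (M + 1)) := by
    have h1 : 2 * d + 2 * M + n = 2 * (m + 1) * (M + 1) := by
      push_cast at hm
      linarith
    rw [h1, hRs, pow_succ s M]
    ring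
  have e1 : lam ^ κ * (- 4 * m * (M + 1 : ℕ) * (d * P x) * s ^ M * R ^ (-m - 1)
        - 4 * m * (M + 1 : ℕ) * M * P x * s * s ^ (M - 1) * R ^ (-m - 1)
        + 4 * m * (m + 1) * (M + 1 : ℕ) ^ 2 * P x * s * s ^ M * s ^ M
            * R ^ (-m - 1 - 1)
        - n * (2 * m * (M + 1 : ℕ) * P x * s ^ M * R ^ (-m - 1)))
      = - (lam ^ κ * (2 * m * (M + 1) * P x * s ^ M * (R ^ (-2 : ℝ) * R ^ (-m)))) *
        (R * (2 * d + 2 * M + n) - 2 * (m + 1) * (M + 1) * s * s ^ M) := by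
    rw [hR1, hR2]
    push_cast
    linear_combination (- (lam ^ κ * 4 * m * (M + 1) * P x * (R ^ (-2 : ℝ) * R ^ (-m)) * R)) * hss
  rw [e1, key]
  push_cast
  ring

end

/-! ### the specific bubble -/

/-- exponent of `lam` -/
def kap (N : ℕ) {n : ℕ} : Option (Fin n) → ℕ
  | none => N
  | some _ => N + 1

noncomputable def mex (n N : ℕ) : Option (Fin n) → ℝ
  | none => 1 / 2
  | some _ => n / (2 * N)

def dex {n : ℕ} : Option (Fin n) → ℝ
  | none => 0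
  | some _ => 1

def Pf {n : ℕ} : Option (Fin n) → EuclideanSpace ℝ (Fin n) → ℝ
  | none => fun _ => 1
  | some i => fun x => x i

noncomputable def Lf {n : ℕ} : Option (Fin n) → (EuclideanSpace ℝ (Fin n) →L[ℝ] ℝ)
  | none => 0
  | some i => EuclideanSpace.proj i

lemma hasFDerivAt_Pf {n : ℕ} (o : Option (Fin n)) (x : EuclideanSpace ℝ (Fin n)) :
    HasFDerivAt (Pf o) (Lf o) x := by
  rcases o with _ | i
  · exact hasFDerivAt_const _ _
  · exact (EuclideanSpace.proj i : EuclideanSpace ℝ (Fin n) →L[ℝ] ℝ).hasFDerivAt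

lemma Lf_eq {n : ℕ} (o : Option (Fin n)) (x : EuclideanSpace ℝ (Fin n)) :
    Lf o x = dex o * Pf o x := by
  rcases o with _ | i <;> simp [Lf, dex, Pf]

lemma mex_eq {n N : ℕ} (hN : 1 ≤ N) (hn : n = N + 2) (o : Option (Fin n)) :
    2 * N * mex n N o = n - 2 + 2 * dex o := by
  have : (N : ℝ) ≠ 0 := by positivity
  rcases o with _ | i
  · simp [mex, dex, hn]; ring
  · simp only [mex, dex]; field_simp; ring

noncomputable def Bf {n : ℕ} (N : ℕ) (lam : ℝ) (o : Option (Fin n)) : EuclideanSpace ℝ (Fin n) → ℝ :=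
  bub N (kap N o) (mex n N o) (Pf o) lam

/-- the constants `4m(m+1)` -/
noncomputable def cc (n N : ℕ) (o : Option (Fin n)) : ℝ := 4 * mex n N o * (mex n N o + 1)

noncomputable def Ef (n : ℕ) (q : ℝ) : ℝ := n - 1 + (1 - n * (1 - q)) ^ 2

/-- quadratic form in the gradient -/
noncomputable def Xq {n : ℕ} (N : ℕ) (y : Option (Fin n) → ℝ) (z : Fin n → Option (Fin n) → ℝ) : ℝ :=
  (∑ k ∈ Finset.range N, ((y none) ^ 2) ^ k) * ∑ a, (z a none) ^ 2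
    + N ^ 2 * (∑ i, (y (some i)) ^ 2) ^ (N - 1) / Ef n ((y none) ^ 2) * ∑ i, ∑ a, (z a (some i)) ^ 2

lemma Ef_pos {n : ℕ} (hn : 2 ≤ n) (q : ℝ) : 0 < Ef n q := by
  unfold Ef
  have : (2 : ℝ) ≤ n := by exact_mod_cast hn
  nlinarith [sq_nonneg (1 - n * (1 - q))]

lemma lap_Bf {n N : ℕ} {lam : ℝ} (hN : 1 ≤ N) (hn : n = N + 2) (o : Option (Fin n))
    {x : EuclideanSpace ℝ (Fin n)} (h : lam ≠ 0 ∨ x ≠ 0) :
    lap (Bf N lam o) x = - cc n N o * Bf N lam o x * Xf N lam x := by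
  unfold Bf
  rw [lap_bub hN (hasFDerivAt_Pf o) (Lf_eq o) (mex_eq hN hn o) hn h]
  unfold cc
  ring

lemma Xq_Bf {n N : ℕ} {lam : ℝ} (hN : 1 ≤ N) (hn : n = N + 2) {x : EuclideanSpace ℝ (Fin n)}
    (h : lam ≠ 0 ∨ x ≠ 0) :
    Xq N (fun o => Bf N lam o x) (fun a o => pd a (Bf N lam o) x) = Xf N lam x := by
  have hR := Rf_pos (N := N) h
  unfold Xq
  have hN0 : (N : ℝ) ≠ 0 := by positivity
  set s := ‖x‖ ^ 2 with hs
  set R := Rf N lam x with hRdef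
  have hRs : R = lam ^ (2 * N) + s ^ N := rfl
  set T := R ^ (-(mex n N (some ⟨0, by omega⟩))) with hT
  have hTpos : 0 < T := Real.rpow_pos_of_pos hR _
  set H := R ^ (-(1/2 : ℝ)) with hH
  have hHpos : 0 < H := Real.rpow_pos_of_pos hR _
  have hH2 : H ^ 2 * R = 1 := by
    rw [hH, ← Real.rpow_natCast, ← Real.rpow_mul hR.le]
    norm_num
    rw [Real.rpow_neg_one, inv_mul_cancel₀ hR.ne']
  have hT2 : T ^ (2 * N) * R ^ (N + 2) = 1 := by
    rw [hT, ← Real.rpow_natCast, ← Real.rpow_mul hR.le]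
    have : -(mex n N (some ⟨0, by omega⟩)) * ((2 * N : ℕ) : ℝ) = - ((N + 2 : ℕ) : ℝ) := by
      simp only [mex]
      push_cast [hn]
      field_simp
    rw [this, Real.rpow_neg hR.le, Real.rpow_natCast, inv_mul_cancel₀ (by positivity)]
  set q := (Bf N lam (none : Option (Fin n)) x) ^ 2 with hq
  have hqR : q * R = lam ^ (2 * N) := by
    have : Bf N lam (none : Option (Fin n)) x = lam ^ N * H := by
      simp only [Bf, bub, kap, Pf, mex, hH, one_mul, ← hRdef]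
    rw [hq, this, mul_pow, mul_assoc, hH2, mul_one, ← pow_mul, mul_comm]
  have hsN : s ^ N = R * (1 - q) := by
    rw [mul_sub, mul_one, mul_comm R q, hqR, hRs]; ring
  have hX : Xf N lam x = N ^ 2 * (q * R) * s ^ (N - 1) * (R ^ 2)⁻¹ := by
    rw [Xf, ← hRdef, ← hs, hqR, Real.rpow_neg hR.le]
    norm_num
  have hsN1 : s ^ (N - 1) * s = s ^ N := by
    rw [← pow_succ, Nat.sub_add_cancel hN]
  have g1 : ∑ a, (pd a (Bf N lam (none : Option (Fin n))) x) ^ 2 = Xf N lam x * (1 - q) := by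
    have e : ∀ a, (pd a (Bf N lam (none : Option (Fin n))) x) ^ 2
        = (q * R) * (N * s ^ (N - 1) * (H * R⁻¹)) ^ 2 * (x a) ^ 2 := by
      intro a
      rw [Bf, pd_bub (hasFDerivAt_Pf none) h a]
      simp only [kap, Lf, Pf, mex, ← hRdef, ← hs]
      rw [Real.rpow_sub_one hR.ne', ← hH, hqR]
      simp
      ring
    simp_rw [e]
    rw [← Finset.mul_sum, sum_sq, ← hs, hX]
    have : (N * s ^ (N - 1) * (H * R⁻¹)) ^ 2 * s = N ^ 2 * s ^ (N - 1) * s ^ N * (H ^ 2 * R) * R⁻¹ ^ 3 := by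
      rw [← hsN1]
      field_simp
    rw [mul_assoc, this, hH2, hsN]
    field_simp
  have g2 : ∑ i : Fin n, ∑ a, (pd a (Bf N lam (some i)) x) ^ 2 = lam ^ (2 * (N + 1)) * T ^ 2 * Ef n q := by
    have e : ∀ i a : Fin n, (pd a (Bf N lam (some i)) x) ^ 2
        = lam ^ (2 * (N + 1)) * T ^ 2 * ((if a = i then (1:ℝ) else 0) - n * s ^ (N - 1) * R⁻¹ * (x i * x a)) ^ 2 := by
      intro i a
      rw [Bf, pd_bub (hasFDerivAt_Pf (some i)) h a]
      simp only [kap, Lf, Pf, mex, ← hRdef, ← hs]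
      rw [Real.rpow_sub_one hR.ne']
      have hT' : R ^ (-((n:ℝ) / (2 * N))) = T := rfl
      rw [hT']
      have h1 : (EuclideanSpace.proj i : EuclideanSpace ℝ (Fin n) →L[ℝ] ℝ) (EuclideanSpace.single a (1:ℝ)) = if a = i then 1 else 0 := by
        simp [Pi.single_apply, eq_comm]
      rw [h1]
      have h2 : 2 * ((n:ℝ) / (2 * N)) * N = n := by field_simp
      rw [h2]
      split_ifs <;> (field_simp; ring)
    simp_rw [e]
    have e2 : ∀ i : Fin n, ∑ a, lam ^ (2 * (N + 1)) * T ^ 2 * ((if a = i then (1:ℝ) else 0) - n * s ^ (N - 1) * R⁻¹ * (x i * x a)) ^ 2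
        = lam ^ (2 * (N + 1)) * T ^ 2 * (1 - 2 * (n * s ^ (N - 1) * R⁻¹) * (x i) ^ 2 + (n * s ^ (N - 1) * R⁻¹) ^ 2 * s * (x i) ^ 2) := by
      intro i
      rw [← Finset.mul_sum]
      congr 1
      have e3 : ∀ a : Fin n, ((if a = i then (1:ℝ) else 0) - n * s ^ (N - 1) * R⁻¹ * (x i * x a)) ^ 2
          = (if a = i then (1:ℝ) - 2 * (n * s ^ (N - 1) * R⁻¹) * (x i) ^ 2 else 0) + (n * s ^ (N - 1) * R⁻¹) ^ 2 * (x i) ^ 2 * (x a) ^ 2 := by
        intro a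
        split_ifs with hai
        · rw [hai]; ring
        · ring
      simp_rw [e3]
      rw [Finset.sum_add_distrib, Finset.sum_ite_eq' Finset.univ i, ← Finset.mul_sum, sum_sq, ← hs]
      simp
      ring
    simp_rw [e2]
    rw [← Finset.mul_sum]
    congr 1
    have e4 : ∀ i : Fin n, (1 - 2 * (n * s ^ (N - 1) * R⁻¹) * (x i) ^ 2 + (n * s ^ (N - 1) * R⁻¹) ^ 2 * s * (x i) ^ 2)
       = 1 + (- 2 * (n * s ^ (N - 1) * R⁻¹) + (n * s ^ (N - 1) * R⁻¹) ^ 2 * s) * (x i) ^ 2 := by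
      intro i; ring
    simp_rw [e4]
    rw [Finset.sum_add_distrib, ← Finset.mul_sum, sum_sq, ← hs, Finset.sum_const, Finset.card_univ, Fintype.card_fin]
    unfold Ef
    have h5 : s ^ (N - 1) * R⁻¹ * s = 1 - q := by
      rw [mul_right_comm, hsN1, hsN]
      field_simp
    have h6 : (- 2 * (n * s ^ (N - 1) * R⁻¹) + (n * s ^ (N - 1) * R⁻¹) ^ 2 * s) * s
        = - 2 * n * (s ^ (N - 1) * R⁻¹ * s) + n ^ 2 * (s ^ (N - 1) * R⁻¹ * s) ^ 2 := by ring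
    rw [h6, h5]
    simp
    ring
  have g3 : ∑ i : Fin n, (Bf N lam (some i) x) ^ 2 = lam ^ (2 * (N + 1)) * T ^ 2 * s := by
    have e : ∀ i : Fin n, (Bf N lam (some i) x) ^ 2 = lam ^ (2 * (N + 1)) * T ^ 2 * (x i) ^ 2 := by
      intro i
      have : Bf N lam (some i) x = lam ^ (N + 1) * (x i * T) := rfl
      rw [this]; ring
    simp_rw [e]
    rw [← Finset.mul_sum, sum_sq]
  rw [g1, g2, g3]
  have hE := Ef_pos (n := n) (by omega) q
  have hgeom : (∑ k ∈ Finset.range N, q ^ k) * (1 - q) = 1 - q ^ N := geom_sum_mul_neg q N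
  have h7 : (∑ k ∈ Finset.range N, q ^ k) * (Xf N lam x * (1 - q)) = Xf N lam x * (1 - q ^ N) := by
    rw [← hgeom]; ring
  rw [h7]
  have h8 : (N:ℝ) ^ 2 * (lam ^ (2 * (N + 1)) * T ^ 2 * s) ^ (N - 1) / Ef n q * (lam ^ (2 * (N + 1)) * T ^ 2 * Ef n q)
      = N ^ 2 * s ^ (N - 1) * ((lam ^ (2 * (N + 1)) * T ^ 2) ^ (N - 1) * (lam ^ (2 * (N + 1)) * T ^ 2)) := by
    rw [mul_pow]
    field_simp
  rw [h8, ← pow_succ, Nat.sub_add_cancel hN, hX]
  have h9 : (lam ^ (2 * (N + 1)) * T ^ 2) ^ N * R ^ (N + 2) = (q * R) ^ (N + 1) := by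
    rw [mul_pow, ← pow_mul T, mul_assoc, hT2, hqR, mul_one, ← pow_mul, ← pow_mul]
    congr 1
    ring
  have h10 : (lam ^ (2 * (N + 1)) * T ^ 2) ^ N = (q * R) ^ (N + 1) / R ^ (N + 2) := by
    rw [← h9]; field_simp
  rw [h10, mul_pow]
  field_simp
  ring

end Pool.Agent.Lib.MP_105042_an
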