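import Pool.Agent.Lib.MP_105042_an.Profile

open MeasureTheory Metric Filter Topology
open scoped ContDiff ENNReal

namespace Pool.Agent.Lib.MP_105042_an

variable {n : ℕ}

lemma Rf_ge {N : ℕ} {ε : ℝ} (hε : 0 < ε) (y : EuclideanSpace ℝ (Fin n)) :
    ((ε + ‖y‖) / 2) ^ (2 * N) ≤ Rf N ε y := by
  unfold Rf
  have h0 := norm_nonneg y
  rcases le_total ε ‖y‖ with h | h
  · have h1 : (ε + ‖y‖) / 2 ≤ ‖y‖ := by linarith
    calc ((ε + ‖y‖) / 2) ^ (2 * N) ≤ ‖y‖ ^ (2 * N) := by gcongr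
      _ = (‖y‖ ^ 2) ^ N := by rw [pow_mul]
      _ ≤ _ := by have : 0 ≤ ε ^ (2 * N) := by positivity
                  linarith
  · have h1 : (ε + ‖y‖) / 2 ≤ ε := by linarith
    calc ((ε + ‖y‖) / 2) ^ (2 * N) ≤ ε ^ (2 * N) := by gcongr
      _ ≤ _ := by have : 0 ≤ (‖y‖ ^ 2) ^ N := by positivity
                  linarith

lemma Rf_rpow_le {N : ℕ} {ε m : ℝ} (hm : 0 ≤ m) (hε : 0 < ε) (y : EuclideanSpace ℝ (Fin n)) :
    (Rf N ε y) ^ (-m) ≤ ((ε + ‖y‖) / 2) ^ (-(2 * N * m)) := by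
  have h0 := norm_nonneg y
  have hpos : 0 < (ε + ‖y‖) / 2 := by linarith
  have h1 : ((ε + ‖y‖) / 2) ^ (-(2 * N * m)) = (((ε + ‖y‖) / 2) ^ (2 * N)) ^ (-m) := by
    rw [← Real.rpow_natCast, ← Real.rpow_mul hpos.le]
    congr 1
    push_cast; ring
  rw [h1]
  exact Real.rpow_le_rpow_of_nonpos (by positivity) (Rf_ge hε y) (by linarith)

/-- the majorant -/
noncomputable def Hf (N : ℕ) (lam : ℝ) (x : EuclideanSpace ℝ (Fin n)) : ℝ :=
  lam ^ N / (lam + ‖x‖) ^ (N + 1)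

lemma Hf_nonneg {N : ℕ} {lam : ℝ} (h : 0 < lam) (x : EuclideanSpace ℝ (Fin n)) : 0 ≤ Hf N lam x := by
  unfold Hf; positivity

lemma Hf_le {N : ℕ} {lam : ℝ} (h : 0 < lam) (x : EuclideanSpace ℝ (Fin n)) : Hf N lam x ≤ lam⁻¹ := by
  unfold Hf
  have h0 := norm_nonneg x
  rw [div_le_iff₀ (by positivity)]
  calc lam ^ N = lam⁻¹ * lam ^ (N + 1) := by rw [pow_succ]; field_simp
    _ ≤ lam⁻¹ * (lam + ‖x‖) ^ (N + 1) := by
      gcongr; linarith

section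
variable {N : ℕ} {ε : ℝ}

/-- `R^{-1/2}` bound -/
lemma R_half_le (hε : 0 < ε) (y : EuclideanSpace ℝ (Fin n)) :
    (Rf N ε y) ^ (-(1/2 : ℝ)) ≤ 2 ^ N / (ε + ‖y‖) ^ N := by
  have h0 := norm_nonneg y
  have hpos : 0 < (ε + ‖y‖) / 2 := by linarith
  have := Rf_rpow_le (N := N) (m := 1/2) (by norm_num) hε y
  refine this.trans (le_of_eq ?_)
  rw [show -(2 * (N:ℝ) * (1/2)) = -(N:ℝ) by ring, Real.rpow_neg hpos.le, Real.rpow_natCast, div_pow]
  field_simp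

lemma R_mex_le (hN : 1 ≤ N) (hn : n = N + 2) (hε : 0 < ε) (y : EuclideanSpace ℝ (Fin n)) :
    (Rf N ε y) ^ (-((n:ℝ) / (2 * N))) ≤ 2 ^ n / (ε + ‖y‖) ^ (N + 2) := by
  have h0 := norm_nonneg y
  have hpos : 0 < (ε + ‖y‖) / 2 := by linarith
  have hN0 : (N : ℝ) ≠ 0 := by positivity
  have := Rf_rpow_le (N := N) (m := (n:ℝ) / (2 * N)) (by positivity) hε y
  refine this.trans (le_of_eq ?_)
  rw [show -(2 * (N:ℝ) * ((n:ℝ) / (2 * N))) = -(n:ℝ) by field_simp, Real.rpow_neg hpos.le,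
    Real.rpow_natCast, div_pow]
  have e : (ε + ‖y‖) ^ n = (ε + ‖y‖) ^ (N + 2) := congrArg (fun k => (ε + ‖y‖) ^ k) hn
  rw [e]
  field_simp

lemma coord_le (y : EuclideanSpace ℝ (Fin n)) (a : Fin n) : |y a| ≤ ‖y‖ := by
  have := PiLp.norm_apply_le y a
  simpa using this

lemma Bf_bound (hN : 1 ≤ N) (hn : n = N + 2) (hε : 0 < ε)
    (y : EuclideanSpace ℝ (Fin n)) (o : Option (Fin n)) :
    |Bf N ε o y| ≤ 2 ^ n * ε ^ N / (ε + ‖y‖) ^ N := by
  have h0 := norm_nonneg y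
  have hr : 0 < ε + ‖y‖ := by linarith
  have hR := Rf_pos (N := N) (lam := ε) (x := y) (Or.inl hε.ne')
  rcases o with _ | i
  · have : Bf N ε (none : Option (Fin n)) y = ε ^ N * (Rf N ε y) ^ (-(1/2 : ℝ)) := by
      simp [Bf, bub, kap, Pf, mex]
    rw [this, abs_of_nonneg (by positivity)]
    calc ε ^ N * (Rf N ε y) ^ (-(1/2 : ℝ)) ≤ ε ^ N * (2 ^ N / (ε + ‖y‖) ^ N) := by
          gcongr; exact R_half_le hε y
      _ = 2 ^ N * ε ^ N / (ε + ‖y‖) ^ N := by ring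
      _ ≤ _ := by
        gcongr
        · norm_num
        · omega
  · have : Bf N ε (some i) y = ε ^ (N + 1) * (y i * (Rf N ε y) ^ (-((n:ℝ) / (2 * N)))) := rfl
    rw [this, abs_mul, abs_mul, abs_of_nonneg (by positivity : 0 ≤ ε ^ (N+1)),
      abs_of_nonneg (by positivity : 0 ≤ (Rf N ε y) ^ (-((n:ℝ) / (2 * N))))]
    have hyi : |y i| ≤ ε + ‖y‖ := (coord_le y i).trans (by linarith)
    calc ε ^ (N + 1) * (|y i| * (Rf N ε y) ^ (-((n:ℝ) / (2 * N))))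
        ≤ ε ^ (N + 1) * ((ε + ‖y‖) * (2 ^ n / (ε + ‖y‖) ^ (N + 2))) := by
          gcongr; exact R_mex_le hN hn hε y
      _ = (2 ^ n * ε ^ N / (ε + ‖y‖) ^ N) * (ε / (ε + ‖y‖)) := by
          rw [pow_succ ε, pow_succ (ε + ‖y‖) (N+1), pow_succ (ε + ‖y‖) N]; field_simp
      _ ≤ (2 ^ n * ε ^ N / (ε + ‖y‖) ^ N) * 1 := by
          gcongr
          rw [div_le_one hr]; linarith
      _ = _ := by ring

lemma pd_Bf_bound (hN : 1 ≤ N) (hn : n = N + 2) (hε : 0 < ε)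
    (y : EuclideanSpace ℝ (Fin n)) (a : Fin n) (o : Option (Fin n)) :
    |pd a (Bf N ε o) y| ≤ (N * 8 ^ N + (1 + n) * 2 ^ n) * Hf N ε y := by
  have h0 := norm_nonneg y
  have hr : 0 < ε + ‖y‖ := by linarith
  have hR := Rf_pos (N := N) (lam := ε) (x := y) (Or.inl hε.ne')
  have hN0 : (N : ℝ) ≠ 0 := by positivity
  have hH := Hf_nonneg (N := N) hε y
  rcases o with _ | i
  · rw [Bf, pd_bub (hasFDerivAt_Pf none) (Or.inl hε.ne') a]
    simp only [kap, Lf, Pf, mex]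
    have h1 : ε ^ N * ((0 : EuclideanSpace ℝ (Fin n) →L[ℝ] ℝ) (EuclideanSpace.single a 1) * Rf N ε y ^ (-(1 / 2 : ℝ))
        - 2 * (1 / 2) * N * 1 * (‖y‖ ^ 2) ^ (N - 1) * Rf N ε y ^ (-(1 / 2 : ℝ) - 1) * y a)
        = - (ε ^ N * (N * (‖y‖ ^ 2) ^ (N - 1) * (Rf N ε y ^ (-(1/2 : ℝ))) ^ 3 * y a)) := by
      have : Rf N ε y ^ (-(1 / 2 : ℝ) - 1) = (Rf N ε y ^ (-(1/2 : ℝ))) ^ 3 := by
        rw [← Real.rpow_natCast, ← Real.rpow_mul hR.le]; norm_num
      rw [this]; simp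
    rw [h1, abs_neg, abs_mul, abs_mul, abs_of_nonneg (by positivity : 0 ≤ ε ^ N),
      abs_of_nonneg (by positivity : 0 ≤ N * (‖y‖ ^ 2) ^ (N - 1) * (Rf N ε y ^ (-(1/2 : ℝ))) ^ 3)]
    have hya : |y a| ≤ ε + ‖y‖ := (coord_le y a).trans (by linarith)
    have hs : (‖y‖ ^ 2) ^ (N - 1) ≤ ((ε + ‖y‖) ^ 2) ^ (N - 1) := by gcongr; linarith
    obtain ⟨M, rfl⟩ : ∃ M, N = M + 1 := ⟨N - 1, by omega⟩
    calc ε ^ (M + 1) * (((M + 1 : ℕ):ℝ) * (‖y‖ ^ 2) ^ (M + 1 - 1) * (Rf (M + 1) ε y ^ (-(1/2 : ℝ))) ^ 3 * |y a|)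
        ≤ ε ^ (M + 1) * (((M + 1 : ℕ):ℝ) * ((ε + ‖y‖) ^ 2) ^ (M + 1 - 1) * (2 ^ (M + 1) / (ε + ‖y‖) ^ (M + 1)) ^ 3 * (ε + ‖y‖)) := by
          gcongr
          exact R_half_le hε y
      _ = ((M + 1 : ℕ):ℝ) * 8 ^ (M + 1) * Hf (M + 1) ε y := by
          unfold Hf
          rw [Nat.add_sub_cancel]
          have h8 : (8:ℝ) ^ (M + 1) = (2 ^ (M + 1)) ^ 3 := by
            rw [← pow_mul, mul_comm, pow_mul]; norm_num
          rw [h8]
          have hr' := hr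
          generalize ε + ‖y‖ = r at hr' ⊢
          field_simp
          ring
      _ ≤ _ := by
          gcongr
          have : (0:ℝ) ≤ (1 + n) * 2 ^ n := by positivity
          linarith
  · rw [Bf, pd_bub (hasFDerivAt_Pf (some i)) (Or.inl hε.ne') a]
    simp only [kap, Lf, Pf, mex]
    set T := Rf N ε y ^ (-((n:ℝ) / (2 * N))) with hT
    have hTpos : 0 < T := Real.rpow_pos_of_pos hR _
    rw [Real.rpow_sub_one hR.ne', ← hT]
    have h1 : (EuclideanSpace.proj i : EuclideanSpace ℝ (Fin n) →L[ℝ] ℝ) (EuclideanSpace.single a (1:ℝ)) = if a = i then 1 else 0 := by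
      simp [eq_comm]
    rw [h1]
    have h2 : 2 * ((n:ℝ) / (2 * N)) * N = n := by field_simp
    rw [h2]
    have hs : |y i| * |y a| * (‖y‖ ^ 2) ^ (N - 1) ≤ Rf N ε y := by
      calc |y i| * |y a| * (‖y‖ ^ 2) ^ (N - 1) ≤ ‖y‖ * ‖y‖ * (‖y‖ ^ 2) ^ (N - 1) := by
            gcongr
            · exact coord_le y i
            · exact coord_le y a
        _ = (‖y‖ ^ 2) ^ N := by
            conv_rhs => rw [← Nat.sub_add_cancel hN, pow_succ]
            ring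
        _ ≤ _ := by
            unfold Rf
            have : 0 ≤ ε ^ (2 * N) := by positivity
            linarith
    have h3 : |n * y i * (‖y‖ ^ 2) ^ (N - 1) * (T / Rf N ε y) * y a| ≤ n * T := by
      rw [abs_mul, abs_mul, abs_mul, abs_mul, abs_of_nonneg (by positivity : (0:ℝ) ≤ n),
        abs_of_nonneg (by positivity : 0 ≤ (‖y‖ ^ 2) ^ (N - 1)), abs_of_nonneg (by positivity : 0 ≤ T / Rf N ε y)]
      calc n * |y i| * (‖y‖ ^ 2) ^ (N - 1) * (T / Rf N ε y) * |y a| 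
          = n * T * ((|y i| * |y a| * (‖y‖ ^ 2) ^ (N - 1)) / Rf N ε y) := by ring
        _ ≤ n * T * 1 := by
            gcongr
            rw [div_le_one hR]; exact hs
        _ = _ := by ring
    have h4 : |(if a = i then (1:ℝ) else 0) * T| ≤ T := by
      split_ifs <;> simp [abs_of_pos hTpos, hTpos.le]
    rw [abs_mul, abs_of_nonneg (by positivity : 0 ≤ ε ^ (N+1))]
    calc ε ^ (N + 1) * |(if a = i then (1:ℝ) else 0) * T - n * y i * (‖y‖ ^ 2) ^ (N - 1) * (T / Rf N ε y) * y a|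
        ≤ ε ^ (N + 1) * ((1 + n) * T) := by
          gcongr
          refine (abs_sub _ _).trans ?_
          linarith
      _ ≤ ε ^ (N + 1) * ((1 + n) * (2 ^ n / (ε + ‖y‖) ^ (N + 2))) := by
          gcongr; exact R_mex_le hN hn hε y
      _ = (1 + n) * 2 ^ n * Hf N ε y * (ε / (ε + ‖y‖)) := by
          unfold Hf
          rw [pow_succ ε, pow_succ (ε + ‖y‖) (N+1)]; field_simp
      _ ≤ (1 + n) * 2 ^ n * Hf N ε y * 1 := by
          gcongr
          rw [div_le_one hr]; linarith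
      _ ≤ _ := by
          rw [mul_one]
          gcongr
          have : (0:ℝ) ≤ N * 8 ^ N := by positivity
          linarith

lemma Bf_none_sq_le (hε : 0 < ε) (y : EuclideanSpace ℝ (Fin n)) :
    (Bf N ε (none : Option (Fin n)) y) ^ 2 ≤ 1 := by
  have hR := Rf_pos (N := N) (lam := ε) (x := y) (Or.inl hε.ne')
  have : Bf N ε (none : Option (Fin n)) y = ε ^ N * (Rf N ε y) ^ (-(1/2 : ℝ)) := by
    simp [Bf, bub, kap, Pf, mex]
  rw [this, mul_pow, ← Real.rpow_natCast (Rf N ε y ^ (-(1/2 : ℝ))), ← Real.rpow_mul hR.le]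
  norm_num
  rw [Real.rpow_neg_one, ← div_eq_mul_inv, div_le_one hR, ← pow_mul, mul_comm N 2]
  unfold Rf
  have : 0 ≤ (‖y‖ ^ 2) ^ N := by positivity
  linarith

lemma Bf_some_sq_le (hN : 1 ≤ N) (hn : n = N + 2) (hε : 0 < ε) (y : EuclideanSpace ℝ (Fin n)) :
    ∑ i, (Bf N ε (some i) y) ^ 2 ≤ 1 := by
  have hR := Rf_pos (N := N) (lam := ε) (x := y) (Or.inl hε.ne')
  have hN0 : (N : ℝ) ≠ 0 := by positivity
  set T := Rf N ε y ^ (-((n:ℝ) / (2 * N))) with hT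
  have hTpos : 0 < T := Real.rpow_pos_of_pos hR _
  have e : ∀ i : Fin n, (Bf N ε (some i) y) ^ 2 = ε ^ (2 * (N + 1)) * T ^ 2 * (y i) ^ 2 := by
    intro i
    have : Bf N ε (some i) y = ε ^ (N + 1) * (y i * T) := rfl
    rw [this]; ring
  simp_rw [e]
  rw [← Finset.mul_sum, sum_sq]
  set s := ‖y‖ ^ 2 with hs
  have hs0 : 0 ≤ s := by positivity
  set ρ := Rf N ε y ^ (1 / (N:ℝ)) with hρ
  have hρpos : 0 < ρ := Real.rpow_pos_of_pos hR _
  have hρN : ρ ^ N = Rf N ε y := by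
    rw [hρ, ← Real.rpow_natCast, ← Real.rpow_mul hR.le]
    field_simp
    simp
  have hTρ : T ^ 2 = (ρ ^ (N + 2))⁻¹ := by
    rw [hT, ← Real.rpow_natCast, ← Real.rpow_mul hR.le, hρ, ← Real.rpow_natCast (Rf N ε y ^ (1 / (N:ℝ))),
      ← Real.rpow_mul hR.le, ← Real.rpow_neg hR.le]
    congr 1
    push_cast [hn]
    field_simp
  have h1 : ε ^ 2 ≤ ρ := by
    refine le_of_pow_le_pow_left₀ (n := N) (by omega) hρpos.le ?_
    rw [hρN, ← pow_mul]
    unfold Rf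
    have : 0 ≤ (‖y‖ ^ 2) ^ N := by positivity
    linarith
  have h2 : s ≤ ρ := by
    refine le_of_pow_le_pow_left₀ (n := N) (by omega) hρpos.le ?_
    rw [hρN]
    unfold Rf
    have : 0 ≤ ε ^ (2 * N) := by positivity
    linarith
  rw [hTρ]
  calc ε ^ (2 * (N + 1)) * (ρ ^ (N + 2))⁻¹ * s = ((ε ^ 2) ^ (N + 1) * s) / ρ ^ (N + 2) := by
        rw [pow_mul]; ring
    _ ≤ (ρ ^ (N + 1) * ρ) / ρ ^ (N + 2) := by gcongr
    _ = 1 := by rw [← pow_succ]; field_simp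

lemma f0_sq_le (y : EuclideanSpace ℝ (Fin n)) : (f0 n y) ^ 2 ≤ 1 := by
  have h1 := (f0 n).nonneg (x := y)
  have h2 := (f0 n).le_one (x := y)
  nlinarith

lemma Vf_none_sq_le (hε : 0 < ε) (y : EuclideanSpace ℝ (Fin n)) :
    (Vf N ε (none : Option (Fin n)) y) ^ 2 ≤ 1 := by
  unfold Vf
  rw [mul_pow]
  have h1 := f0_sq_le y
  have h2 := Bf_none_sq_le (N := N) hε y
  have h3 := sq_nonneg (Bf N ε (none : Option (Fin n)) y)
  have h4 := sq_nonneg (f0 n y)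
  nlinarith

lemma Vf_some_sq_le (hN : 1 ≤ N) (hn : n = N + 2) (hε : 0 < ε) (y : EuclideanSpace ℝ (Fin n)) :
    ∑ i, (Vf N ε (some i) y) ^ 2 ≤ 1 := by
  have h1 := f0_sq_le y
  have h2 := Bf_some_sq_le hN hn hε y
  unfold Vf
  simp_rw [mul_pow]
  rw [← Finset.mul_sum]
  have h3 : 0 ≤ ∑ i, (Bf N ε (some i) y) ^ 2 := Finset.sum_nonneg fun i _ => sq_nonneg _
  have h4 := sq_nonneg (f0 n y)
  nlinarith

lemma contDiff_Bf (hε : ε ≠ 0) (o : Option (Fin n)) : ContDiff ℝ ∞ (Bf N ε o) := by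
  rw [contDiff_iff_contDiffAt]
  intro x
  exact (contDiffAt_Bf_joint N o (p := (ε, x)) (Or.inl hε)).comp x (contDiffAt_const.prodMk contDiffAt_id)

/-- gradient bound for the truncated bubble, uniform in `ε` -/
lemma pd_Vf_bound (hN : 1 ≤ N) (hn : n = N + 2) :
    ∃ K : ℝ, 0 < K ∧ ∀ ε : ℝ, 0 < ε → ε ≤ 1 → ∀ (o : Option (Fin n)) (a : Fin n) (y : EuclideanSpace ℝ (Fin n)),
      |pd a (Vf N ε o) y| ≤ K * Hf N ε y := by
  have hcont : ∀ a : Fin n, Continuous (pd a (f0 n)) := fun a =>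
    ((f0 n).contDiff (n := ⊤).continuous_fderiv (by simp)).clm_apply continuous_const
  have hsupp : ∀ a : Fin n, HasCompactSupport (pd a (f0 n)) := by
    intro a
    have := (f0 n).hasCompactSupport.fderiv (𝕜 := ℝ)
    exact this.comp_left (g := fun L : EuclideanSpace ℝ (Fin n) →L[ℝ] ℝ => L (EuclideanSpace.single a 1)) (by simp)
  choose C hC using fun a => (hsupp a).exists_bound_of_continuous (hcont a)
  set C0 := ∑ a, |C a| with hC0
  have hC0' : ∀ a y, |pd a (f0 n) y| ≤ C0 := by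
    intro a y
    have h1 := hC a y
    rw [Real.norm_eq_abs] at h1
    have h2 : |C a| ≤ C0 := Finset.single_le_sum (f := fun a => |C a|) (fun a _ => abs_nonneg _) (Finset.mem_univ a)
    exact h1.trans ((le_abs_self _).trans h2)
  have hC0n : 0 ≤ C0 := Finset.sum_nonneg fun a _ => abs_nonneg _
  refine ⟨C0 * (2 ^ n * 2) + (N * 8 ^ N + (1 + n) * 2 ^ n), by positivity, ?_⟩
  intro ε hε hε1 o a y
  have hH := Hf_nonneg (N := N) hε y
  by_cases hy : 1 < ‖y‖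
  · rw [pd_congr (Vf_zero_outer' hy), pd_zero, abs_zero]
    positivity
  · push Not at hy
    have h0 := norm_nonneg y
    have hr : 0 < ε + ‖y‖ := by linarith
    have hd1 : DifferentiableAt ℝ (f0 n) y := ((f0 n).contDiff (n := 1)).differentiable (by norm_num) y
    have hd2 : DifferentiableAt ℝ (Bf N ε o) y := (contDiff_Bf hε.ne' o).differentiable (by norm_num) y
    have hprod : pd a (Vf N ε o) y = f0 n y * pd a (Bf N ε o) y + Bf N ε o y * pd a (f0 n) y := by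
      unfold pd Vf
      have : fderiv ℝ (fun y => f0 n y * Bf N ε o y) y = f0 n y • fderiv ℝ (Bf N ε o) y + Bf N ε o y • fderiv ℝ (f0 n) y :=
        fderiv_mul hd1 hd2
      change (fderiv ℝ (fun y => f0 n y * Bf N ε o y) y) _ = _
      rw [this]
      simp
    rw [hprod]
    have e1 : |f0 n y * pd a (Bf N ε o) y| ≤ (N * 8 ^ N + (1 + n) * 2 ^ n) * Hf N ε y := by
      rw [abs_mul, abs_of_nonneg (f0 n).nonneg]
      calc f0 n y * |pd a (Bf N ε o) y| ≤ 1 * |pd a (Bf N ε o) y| := by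
            gcongr; exact (f0 n).le_one
        _ ≤ _ := by rw [one_mul]; exact pd_Bf_bound hN hn hε y a o
    have e2 : |Bf N ε o y * pd a (f0 n) y| ≤ C0 * (2 ^ n * 2) * Hf N ε y := by
      rw [abs_mul]
      calc |Bf N ε o y| * |pd a (f0 n) y| ≤ (2 ^ n * ε ^ N / (ε + ‖y‖) ^ N) * C0 := by
            gcongr
            · exact Bf_bound hN hn hε y o
            · exact hC0' a y
        _ = C0 * 2 ^ n * Hf N ε y * (ε + ‖y‖) := by
            unfold Hf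
            rw [pow_succ]
            field_simp
        _ ≤ C0 * 2 ^ n * Hf N ε y * 2 := by
            gcongr; linarith
        _ = _ := by ring
    calc |f0 n y * pd a (Bf N ε o) y + Bf N ε o y * pd a (f0 n) y| ≤ _ + _ := abs_add_le _ _
      _ ≤ (N * 8 ^ N + (1 + n) * 2 ^ n) * Hf N ε y + C0 * (2 ^ n * 2) * Hf N ε y := add_le_add e1 e2
      _ = _ := by ring

end

end Pool.Agent.Lib.MP_105042_an
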