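import Pool.Agent.Lib.MP_105042_an.Sums

open MeasureTheory Metric Filter Topology
open scoped ContDiff ENNReal

namespace Pool.Agent.Lib.MP_105042_an

variable {n : ℕ}

section
variable {N : ℕ} {eps : ℕ → ℝ} {i0 : Fin n}

lemma integrable_tsum_supp {F : ℕ → EuclideanSpace ℝ (Fin n) → ℝ} (hF : Supp i0 F)
    {μ : Measure (EuclideanSpace ℝ (Fin n))}
    (hI : ∀ j, Integrable (F j) μ) (hS : Summable fun j => ∫ x, ‖F j x‖ ∂μ) :
    Integrable (fun x => ∑' j, F j x) μ := by
  constructor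
  · refine aestronglyMeasurable_of_tendsto_ae atTop
      (f := fun (k : ℕ) (x : EuclideanSpace ℝ (Fin n)) => ∑ j ∈ Finset.range k, F j x) ?_ ?_
    · intro k
      exact (integrable_finsetSum _ fun j _ => hI j).1
    · exact ae_of_all _ fun x => (summable_pt hF x).hasSum.tendsto_sum_nat
  · have h1 : ∫⁻ x, ‖∑' j, F j x‖ₑ ∂μ ≤ ∫⁻ x, ∑' j, ‖F j x‖ₑ ∂μ := by
      refine lintegral_mono fun x => ?_
      rcases cases_ball i0 x with ⟨j, hj⟩ | h
      · change ‖∑' j, F j x‖ₑ ≤ ∑' j, ‖F j x‖ₑ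
        rw [tsum_in hF hj]
        exact ENNReal.le_tsum j
      · change ‖∑' j, F j x‖ₑ ≤ ∑' j, ‖F j x‖ₑ
        rw [tsum_out hF h]
        simp
    refine h1.trans_lt ?_
    rw [lintegral_tsum (fun j => (hI j).1.enorm)]
    have this (i : ℕ) : ∫⁻ a, ‖F i a‖ₑ ∂μ = ENNReal.ofReal (∫ a, ‖F i a‖ ∂μ) :=
      (ofReal_integral_norm_eq_lintegral_enorm (hI i)).symm
    rw [funext this]
    exact lt_top_iff_ne_top.mpr hS.tsum_ofReal_ne_top

/-- truncated powers of the majorant -/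
noncomputable def Tp (N : ℕ) (eps : ℕ → ℝ) (i0 : Fin n) (p : ℝ) (j : ℕ) :
    EuclideanSpace ℝ (Fin n) → ℝ :=
  (closedBall (cen i0 j) (rad j)).indicator (fun x => (Hf N (rad j * eps j) (x - cen i0 j)) ^ p)

lemma supp_Tp (p : ℝ) : Supp i0 (Tp N eps i0 p) := by
  intro j x hx
  unfold Tp
  rw [Set.indicator_of_notMem]
  rw [mem_closedBall, dist_eq_norm]
  linarith

lemma Tp_in (p : ℝ) {j : ℕ} {x : EuclideanSpace ℝ (Fin n)} (hx : ‖x - cen i0 j‖ ≤ rad j) :
    Tp N eps i0 p j x = (Hf N (rad j * eps j) (x - cen i0 j)) ^ p := by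
  unfold Tp
  rw [Set.indicator_of_mem]
  rwa [mem_closedBall, dist_eq_norm]

lemma Good.lam_pos (h : Good n N eps) (j : ℕ) : 0 < rad j * eps j := mul_pos (rad_pos j) (h.pos j)

lemma Tp_nonneg (h : Good n N eps) (p : ℝ) (j : ℕ) (x : EuclideanSpace ℝ (Fin n)) :
    0 ≤ Tp N eps i0 p j x := by
  unfold Tp
  refine Set.indicator_nonneg (fun x _ => ?_) x
  exact Real.rpow_nonneg (Hf_nonneg (h.lam_pos j) _) _

lemma integrable_Tp (h : Good n N eps) {p : ℝ} (hp : 2 ≤ p) (j : ℕ) :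
    Integrable (Tp N eps i0 p j) :=
  (integrable_Hf h.hn hp h.hN (h.lam_pos j) _).indicator measurableSet_closedBall

/-- the constant `∫ H₁^p` -/
noncomputable def Ip (n N : ℕ) (p : ℝ) : ℝ := ∫ x : EuclideanSpace ℝ (Fin n), (Hf N 1 x) ^ p

lemma Ip_nonneg (p : ℝ) : 0 ≤ Ip n N p :=
  integral_nonneg fun _ => Real.rpow_nonneg (Hf_nonneg one_pos _) _

lemma setIntegral_Tp_le (h : Good n N eps) {p : ℝ} (hp : 2 ≤ p) (j : ℕ)
    (s : Set (EuclideanSpace ℝ (Fin n))) :
    ∫ x in s, Tp N eps i0 p j x ≤ (rad j * eps j) ^ ((n:ℝ) - p) * Ip n N p := by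
  have h1 : ∫ x in s, Tp N eps i0 p j x ≤ ∫ x, Tp N eps i0 p j x :=
    setIntegral_le_integral (integrable_Tp h hp j) (ae_of_all _ fun x => Tp_nonneg h p j x)
  refine h1.trans ?_
  unfold Ip
  rw [← integral_Hf (h.lam_pos j) (cen i0 j)]
  refine integral_mono (integrable_Tp h hp j) (integrable_Hf h.hn hp h.hN (h.lam_pos j) _) fun x => ?_
  unfold Tp
  refine Set.indicator_le_self' (fun x _ => ?_) x
  exact Real.rpow_nonneg (Hf_nonneg (h.lam_pos j) _) _

lemma summable_rad_rpow {q : ℝ} (hq : 0 < q) : Summable fun j => (rad j) ^ q := by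
  have h1 : ∀ j, (rad j) ^ q = (((1:ℝ) / 4) ^ q) ^ (j + 2) := by
    intro j
    unfold rad
    rw [← Real.rpow_natCast, ← Real.rpow_natCast, ← Real.rpow_mul (by norm_num), ← Real.rpow_mul (by norm_num)]
    congr 1
    ring
  simp_rw [h1]
  have h2 : ((1:ℝ) / 4) ^ q < 1 := Real.rpow_lt_one (by norm_num) (by norm_num) hq
  have h3 : 0 ≤ ((1:ℝ) / 4) ^ q := by positivity
  exact (summable_nat_add_iff 2).mpr (summable_geometric_of_lt_one h3 h2)

lemma lam_rpow_le (h : Good n N eps) {q : ℝ} (hq : 0 < q) (j : ℕ) :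
    (rad j * eps j) ^ q ≤ (rad j) ^ q := by
  refine Real.rpow_le_rpow (h.lam_pos j).le ?_ hq.le
  calc rad j * eps j ≤ rad j * 1 := by
        have := rad_pos j
        gcongr
        exact h.le_one j
    _ = _ := mul_one _

lemma summable_Tp (h : Good n N eps) {p : ℝ} (hp : 2 ≤ p) (hpn : p < n)
    (s : Set (EuclideanSpace ℝ (Fin n))) :
    Summable fun j => ∫ x in s, ‖Tp N eps i0 p j x‖ := by
  have hq : 0 < (n:ℝ) - p := by linarith
  refine Summable.of_nonneg_of_le (fun j => integral_nonneg fun _ => norm_nonneg _) (fun j => ?_)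
    ((summable_rad_rpow hq).mul_right (Ip n N p))
  have e : ∀ x, ‖Tp N eps i0 p j x‖ = Tp N eps i0 p j x := fun x =>
    Real.norm_of_nonneg (Tp_nonneg h p j x)
  simp_rw [e]
  refine (setIntegral_Tp_le h hp j s).trans ?_
  exact mul_le_mul_of_nonneg_right (lam_rpow_le h hq j) (Ip_nonneg p)

lemma integrable_Tsum (h : Good n N eps) {p : ℝ} (hp : 2 ≤ p) (hpn : p < n) :
    Integrable (fun x => ∑' j, Tp N eps i0 p j x) := by
  have := summable_Tp (i0 := i0) h hp hpn Set.univ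
  rw [Measure.restrict_univ] at this
  exact integrable_tsum_supp (supp_Tp p) (integrable_Tp h hp) this

lemma hasSum_Tp (h : Good n N eps) {p : ℝ} (hp : 2 ≤ p) (hpn : p < n)
    (s : Set (EuclideanSpace ℝ (Fin n))) :
    HasSum (fun j => ∫ x in s, Tp N eps i0 p j x) (∫ x in s, ∑' j, Tp N eps i0 p j x) :=
  hasSum_integral_of_summable_integral_norm (fun j => (integrable_Tp h hp j).integrableOn)
    (summable_Tp h hp hpn s)

/-- the majorant `1 + H²` on the `j`-th ball -/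
noncomputable def Mj (N : ℕ) (eps : ℕ → ℝ) (i0 : Fin n) (j : ℕ) (x : EuclideanSpace ℝ (Fin n)) : ℝ :=
  (closedBall (cen i0 j) (rad j)).indicator (fun _ => (1:ℝ)) x + Tp N eps i0 2 j x

lemma Mj_in {j : ℕ} {x : EuclideanSpace ℝ (Fin n)} (hx : ‖x - cen i0 j‖ ≤ rad j) :
    Mj N eps i0 j x = 1 + (Hf N (rad j * eps j) (x - cen i0 j)) ^ 2 := by
  unfold Mj
  rw [Tp_in 2 hx, Set.indicator_of_mem, Real.rpow_two]
  rwa [mem_closedBall, dist_eq_norm]

lemma Mj_nonneg (h : Good n N eps) (j : ℕ) (x : EuclideanSpace ℝ (Fin n)) : 0 ≤ Mj N eps i0 j x := by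
  unfold Mj
  have := Tp_nonneg (i0 := i0) h 2 j x
  have h2 : 0 ≤ (closedBall (cen i0 j) (rad j)).indicator (fun _ => (1:ℝ)) x :=
    Set.indicator_nonneg (fun _ _ => zero_le_one) x
  linarith

lemma integrable_Mj (h : Good n N eps) (j : ℕ) : Integrable (Mj N eps i0 j) := by
  unfold Mj
  refine Integrable.add ?_ (integrable_Tp h le_rfl j)
  exact (integrable_indicator_iff measurableSet_closedBall).mpr
    (integrableOn_const (hs := (isCompact_closedBall _ _).measure_ne_top))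

lemma summable_Mj (h : Good n N eps) : Summable fun j => ∫ x, Mj N eps i0 j x := by
  have hN : (1:ℝ) ≤ N := by exact_mod_cast h.hN
  have hn2 : (2:ℝ) < n := by
    rw [h.hn]; push_cast; linarith
  have e : ∀ j, ∫ x, Mj N eps i0 j x = volume.real (closedBall (cen i0 j) (rad j)) + ∫ x, Tp N eps i0 2 j x := by
    intro j
    unfold Mj
    rw [integral_add _ (integrable_Tp h le_rfl j),
      show (closedBall (cen i0 j) (rad j)).indicator (fun _ => (1:ℝ)) = (closedBall (cen i0 j) (rad j)).indicator 1 from rfl,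
      integral_indicator_one measurableSet_closedBall]
    exact (integrable_indicator_iff measurableSet_closedBall).mpr
      (integrableOn_const (hs := (isCompact_closedBall _ _).measure_ne_top))
  simp_rw [e]
  refine Summable.add ?_ ?_
  · have e2 : ∀ j, volume.real (closedBall (cen i0 j) (rad j)) = (rad j) ^ (n:ℝ) * volume.real (ball (0 : EuclideanSpace ℝ (Fin n)) 1) := by
      intro j
      rw [Measure.addHaar_real_closedBall _ _ (rad_pos j).le, finrank_euclideanSpace_fin, Real.rpow_natCast]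
    simp_rw [e2]
    exact (summable_rad_rpow (by linarith)).mul_right _
  · have := summable_Tp (i0 := i0) h le_rfl hn2 Set.univ
    rw [Measure.restrict_univ] at this
    refine this.congr fun j => ?_
    refine integral_congr_ae (ae_of_all _ fun x => ?_)
    exact Real.norm_of_nonneg (Tp_nonneg h 2 j x)

/-- functions dominated by the majorants can be summed under the integral -/
lemma sum_dom (h : Good n N eps) {F : ℕ → EuclideanSpace ℝ (Fin n) → ℝ}
    (hF : ∀ j, Continuous (F j)) {C : ℝ} (hC : ∀ j x, |F j x| ≤ C * Mj N eps i0 j x) :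
    (∀ j, Integrable (F j)) ∧ (Summable fun j => ∫ x, ‖F j x‖) ∧
    HasSum (fun j => ∫ x, F j x) (∫ x, ∑' j, F j x) := by
  have h1 : ∀ j, Integrable (F j) := fun j =>
    ((integrable_Mj h j).const_mul C).mono' (hF j).aestronglyMeasurable (ae_of_all _ fun x => hC j x)
  have h2 : Summable fun j => ∫ x, ‖F j x‖ := by
    refine Summable.of_nonneg_of_le (fun j => integral_nonneg fun _ => norm_nonneg _) (fun j => ?_)
      ((summable_Mj (i0 := i0) h).mul_left C)
    rw [← integral_const_mul]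
    exact integral_mono (h1 j).norm ((integrable_Mj h j).const_mul C) fun x => hC j x
  exact ⟨h1, h2, hasSum_integral_of_summable_integral_norm h1 h2⟩

/-! ### pointwise bounds -/

lemma Wj_le (h : Good n N eps) (o : Option (Fin n)) (j : ℕ) (x : EuclideanSpace ℝ (Fin n)) :
    |Wj N eps i0 o j x| ≤ 1 := by
  have hk : (Wj N eps i0 o j x) ^ 2 ≤ 1 := by
    unfold Wj Wg
    rcases o with _ | i
    · exact Vf_none_sq_le (h.pos j) _
    · refine le_trans ?_ (Vf_some_sq_le h.hN h.hn (h.pos j) ((rad j)⁻¹ • (x - cen i0 j)))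
      exact Finset.single_le_sum (f := fun i => (Vf N (eps j) (some i) ((rad j)⁻¹ • (x - cen i0 j))) ^ 2)
        (fun i _ => sq_nonneg _) (Finset.mem_univ i)
  exact (sq_le_one_iff_abs_le_one _).mp hk

lemma sum_Wj_sq_le (h : Good n N eps) (j : ℕ) (x : EuclideanSpace ℝ (Fin n)) :
    (Wj N eps i0 none j x) ^ 2 + ∑ i, (Wj N eps i0 (some i) j x) ^ 2 ≤ 2 := by
  unfold Wj Wg
  have h1 := Vf_none_sq_le (N := N) (h.pos j) ((rad j)⁻¹ • (x - cen i0 j))
  have h2 := Vf_some_sq_le h.hN h.hn (h.pos j) ((rad j)⁻¹ • (x - cen i0 j))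
  linarith

/-- constant of the gradient bound -/
def KB (n N : ℕ) (K : ℝ) : Prop := 0 < K ∧ ∀ ε : ℝ, 0 < ε → ε ≤ 1 → ∀ (o : Option (Fin n)) (a : Fin n)
  (y : EuclideanSpace ℝ (Fin n)), |pd a (Vf N ε o) y| ≤ K * Hf N ε y

lemma pd_Wj_le (h : Good n N eps) {K : ℝ} (hK : KB n N K) (a : Fin n) (o : Option (Fin n)) (j : ℕ)
    (x : EuclideanSpace ℝ (Fin n)) :
    |pd a (Wj N eps i0 o j) x| ≤ K * Hf N (rad j * eps j) (x - cen i0 j) := by
  have hr := rad_pos j
  unfold Wj
  rw [pd_Wg (h.pos j).ne', abs_mul, abs_of_pos (by positivity), ← Hf_scale hr (h.pos j)]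
  calc (rad j)⁻¹ * |pd a (Vf N (eps j) o) ((rad j)⁻¹ • (x - cen i0 j))|
      ≤ (rad j)⁻¹ * (K * Hf N (eps j) ((rad j)⁻¹ • (x - cen i0 j))) := by
        gcongr
        exact hK.2 _ (h.pos j) (h.le_one j) o a _
    _ = _ := by ring

lemma contDiff_Wj (h : Good n N eps) (o : Option (Fin n)) (j : ℕ) :
    ContDiff ℝ ∞ (Wj N eps i0 o j) := contDiff_Wg (h.pos j).ne'

end

end Pool.Agent.Lib.MP_105042_an
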