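import Pool.Agent.Lib.MP_105042_an.Weak

open MeasureTheory Metric Filter Topology
open scoped ContDiff ENNReal

namespace Pool.Agent.Lib.MP_105042_an

variable {n : ℕ}

section
variable {N : ℕ} {eps : ℕ → ℝ} {i0 : Fin n}

lemma Tp_le (h : Good n N eps) {p : ℝ} (hp : 0 ≤ p) (j : ℕ) (x : EuclideanSpace ℝ (Fin n)) :
    Tp N eps i0 p j x ≤ ((rad j * eps j)⁻¹) ^ p := by
  have hl := h.lam_pos j
  by_cases hx : ‖x - cen i0 j‖ ≤ rad j
  · rw [Tp_in p hx]
    exact Real.rpow_le_rpow (Hf_nonneg hl _) (Hf_le hl _) hp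
  · push Not at hx
    rw [supp_Tp p j x hx]
    positivity

/-- volume of the unit ball -/
noncomputable def vb (n : ℕ) : ℝ := volume.real (ball (0 : EuclideanSpace ℝ (Fin n)) 1)

lemma vb_nonneg (n : ℕ) : 0 ≤ vb n := measureReal_nonneg

lemma vol_ball (x0 : EuclideanSpace ℝ (Fin n)) {r : ℝ} (hr : 0 < r) :
    volume.real (ball x0 r) = r ^ (n : ℝ) * vb n := by
  rw [vb, measureReal_def, Measure.addHaar_ball_of_pos _ _ hr, finrank_euclideanSpace_fin, Real.rpow_natCast,
    ENNReal.toReal_mul, ENNReal.toReal_ofReal (by positivity), measureReal_def]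

lemma setInt_ball_le (h : Good n N eps) {p : ℝ} (hp : 2 ≤ p) (j : ℕ) (x0 : EuclideanSpace ℝ (Fin n))
    {r : ℝ} (hr : 0 < r) :
    ∫ x in ball x0 r, Tp N eps i0 p j x ≤ ((rad j * eps j)⁻¹) ^ p * (r ^ (n : ℝ) * vb n) := by
  have h1 := norm_setIntegral_le_of_norm_le_const (μ := volume) (s := ball x0 r)
    (f := Tp N eps i0 p j) (C := ((rad j * eps j)⁻¹) ^ p) measure_ball_lt_top (fun x _ => by
      rw [Real.norm_of_nonneg (Tp_nonneg h p j x)]
      exact Tp_le h (by linarith) j x)
  rw [vol_ball x0 hr] at h1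
  exact (le_abs_self _).trans h1

lemma int_zero_of_disj {p : ℝ} {j : ℕ} {s : Set (EuclideanSpace ℝ (Fin n))} (hs : MeasurableSet s)
    (hd : ∀ x ∈ s, rad j < ‖x - cen i0 j‖) : ∫ x in s, Tp N eps i0 p j x = 0 := by
  rw [setIntegral_congr_fun (g := fun _ => (0:ℝ)) hs (fun x hx => supp_Tp p j x (hd x hx))]
  simp

/-- the Morrey sum tends to zero at every point -/
lemma tendsto_sum (h : Good n N eps) {p : ℝ} (hp : 2 ≤ p) (hpn : p < n)
    (x0 : EuclideanSpace ℝ (Fin n)) :
    Tendsto (fun r : ℝ => ∑' j, r ^ (-((n:ℝ) - p)) * ∫ x in ball x0 r, Tp N eps i0 p j x)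
      (𝓝[>] 0) (𝓝 0) := by
  have hq : 0 < (n:ℝ) - p := by linarith
  have hv := vb_nonneg n
  have hpt : ∀ j, Tendsto (fun r : ℝ => r ^ (-((n:ℝ) - p)) * ∫ x in ball x0 r, Tp N eps i0 p j x)
      (𝓝[>] 0) (𝓝 0) := by
    intro j
    have hlim : Tendsto (fun r : ℝ => ((rad j * eps j)⁻¹) ^ p * vb n * r ^ p) (𝓝[>] 0) (𝓝 0) := by
      have : Tendsto (fun r : ℝ => r ^ p) (𝓝[>] 0) (𝓝 0) := by
        have h1 := (Real.continuousAt_rpow_const 0 p (Or.inr (by linarith))).tendsto
        rw [Real.zero_rpow (by linarith)] at h1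
        exact h1.mono_left nhdsWithin_le_nhds
      simpa using this.const_mul (((rad j * eps j)⁻¹) ^ p * vb n)
    refine squeeze_zero' ?_ ?_ hlim
    · filter_upwards [self_mem_nhdsWithin] with r hr
      have hr' : (0:ℝ) < r := hr
      exact mul_nonneg (by positivity) (integral_nonneg fun x => Tp_nonneg h p j x)
    · filter_upwards [self_mem_nhdsWithin] with r hr
      have hr' : (0:ℝ) < r := hr
      calc r ^ (-((n:ℝ) - p)) * ∫ x in ball x0 r, Tp N eps i0 p j x
          ≤ r ^ (-((n:ℝ) - p)) * (((rad j * eps j)⁻¹) ^ p * (r ^ (n : ℝ) * vb n)) := by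
            gcongr
            exact setInt_ball_le h hp j x0 hr'
        _ = ((rad j * eps j)⁻¹) ^ p * vb n * (r ^ (-((n:ℝ) - p)) * r ^ (n:ℝ)) := by ring
        _ = _ := by
            rw [← Real.rpow_add hr']
            congr 2
            ring
  have hdom : ∃ b : ℕ → ℝ, Summable b ∧ ∀ᶠ r in 𝓝[>] (0:ℝ), ∀ j,
      ‖r ^ (-((n:ℝ) - p)) * ∫ x in ball x0 r, Tp N eps i0 p j x‖ ≤ b j := by
    by_cases hx0 : x0 = 0
    · subst hx0
      refine ⟨fun j => (((1:ℝ) / 2) ^ ((n:ℝ) - p)) ^ j * Ip n N p, ?_, ?_⟩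
      · refine (summable_geometric_of_lt_one (by positivity) ?_).mul_right _
        exact Real.rpow_lt_one (by norm_num) (by norm_num) hq
      · filter_upwards [self_mem_nhdsWithin] with r hr j
        have hr' : (0:ℝ) < r := hr
        have hI := Ip_nonneg (n := n) (N := N) p
        rw [Real.norm_of_nonneg (mul_nonneg (by positivity) (integral_nonneg fun x => Tp_nonneg h p j x))]
        have hrj := rad_pos j
        have hej := h.pos j
        by_cases hrr : r ≤ rad j
        · rw [int_zero_of_disj measurableSet_ball, mul_zero]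
          · positivity
          · intro x hx
            by_contra hc
            push Not at hc
            have h1 := (coord_bounds hc).1
            have h2 := coord_le x i0
            have h3 : ‖x‖ < r := by simpa using hx
            linarith [le_abs_self (x i0)]
        · push Not at hrr
          calc r ^ (-((n:ℝ) - p)) * ∫ x in ball 0 r, Tp N eps i0 p j x
              ≤ (rad j) ^ (-((n:ℝ) - p)) * ((rad j * eps j) ^ ((n:ℝ) - p) * Ip n N p) := by
                refine mul_le_mul (Real.rpow_le_rpow_of_nonpos hrj hrr.le (by linarith))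
                  (setIntegral_Tp_le h hp j _) (integral_nonneg fun x => Tp_nonneg h p j x) ?_
                positivity
            _ = (eps j) ^ ((n:ℝ) - p) * Ip n N p := by
                rw [Real.mul_rpow hrj.le hej.le, Real.rpow_neg hrj.le]
                field_simp
            _ ≤ (((1:ℝ) / 2) ^ ((n:ℝ) - p)) ^ j * Ip n N p := by
                gcongr
                rw [← Real.rpow_natCast, ← Real.rpow_mul (by norm_num), mul_comm, Real.rpow_mul (by norm_num),
                  Real.rpow_natCast]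
                exact Real.rpow_le_rpow hej.le (h.le j) hq.le
    · have hd : 0 < ‖x0‖ := norm_pos_iff.mpr hx0
      obtain ⟨J, hJ⟩ := exists_pow_lt_of_lt_one (show 0 < ‖x0‖ / 10 by positivity) (show (1:ℝ) / 4 < 1 by norm_num)
      refine ⟨fun j => if rad j < ‖x0‖ / 10 then 0 else ((rad j * eps j)⁻¹) ^ p * vb n, ?_, ?_⟩
      · refine summable_of_ne_finset_zero (s := Finset.range J) fun j hj => ?_
        have hj' : J ≤ j := by simpa using hj
        rw [if_pos]
        refine lt_of_le_of_lt ?_ hJ
        exact pow_le_pow_of_le_one (by norm_num) (by norm_num) (by omega)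
      · have hmin : 0 < min (‖x0‖ / 2) 1 := by positivity
        filter_upwards [self_mem_nhdsWithin, mem_nhdsWithin_of_mem_nhds (Iio_mem_nhds hmin)] with r hr hr1 j
        have hr' : (0:ℝ) < r := hr
        have hrd : r < ‖x0‖ / 2 := lt_of_lt_of_le hr1 (min_le_left _ _)
        have hr1' : r < 1 := lt_of_lt_of_le hr1 (min_le_right _ _)
        rw [Real.norm_of_nonneg (mul_nonneg (by positivity) (integral_nonneg fun x => Tp_nonneg h p j x))]
        have hl := h.lam_pos j
        split_ifs with hc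
        · rw [int_zero_of_disj measurableSet_ball, mul_zero]
          intro x hx
          by_contra hcon
          push Not at hcon
          have h3 : ‖x - x0‖ < r := by simpa [dist_eq_norm] using hx
          have h4 : ‖x0‖ ≤ ‖x‖ + ‖x - x0‖ := by
            have := norm_sub_le x (x - x0)
            simpa using this
          have h5 : ‖x‖ ≤ ‖x - cen i0 j‖ + ‖cen i0 j‖ := by
            have := norm_add_le (x - cen i0 j) (cen i0 j)
            simpa using this
          rw [norm_cen] at h5
          linarith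
        · calc r ^ (-((n:ℝ) - p)) * ∫ x in ball x0 r, Tp N eps i0 p j x
              ≤ r ^ (-((n:ℝ) - p)) * (((rad j * eps j)⁻¹) ^ p * (r ^ (n : ℝ) * vb n)) := by
                gcongr
                exact setInt_ball_le h hp j x0 hr'
            _ = ((rad j * eps j)⁻¹) ^ p * vb n * (r ^ (-((n:ℝ) - p)) * r ^ (n:ℝ)) := by ring
            _ = ((rad j * eps j)⁻¹) ^ p * vb n * r ^ p := by
                rw [← Real.rpow_add hr']
                congr 2
                ring
            _ ≤ ((rad j * eps j)⁻¹) ^ p * vb n * 1 := by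
                gcongr
                exact Real.rpow_le_one hr'.le hr1'.le (by linarith)
            _ = _ := mul_one _
  obtain ⟨b, hb, hbd⟩ := hdom
  have := tendsto_tsum_of_dominated_convergence hb hpt hbd
  simpa using this

/-! ### measurability and pointwise bounds for the sums -/

lemma measurable_ws (h : Good n N eps) (o : Option (Fin n)) : Measurable (ws N eps i0 o) := by
  refine measurable_of_tendsto_metrizable
    (f := fun (k : ℕ) (x : EuclideanSpace ℝ (Fin n)) => ∑ j ∈ Finset.range k, Wj N eps i0 o j x) ?_ ?_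
  · intro k
    exact (continuous_finsetSum _ fun j _ => (contDiff_Wj h o j).continuous).measurable
  · rw [tendsto_pi_nhds]
    intro x
    exact (summable_pt (supp_W o) x).hasSum.tendsto_sum_nat

lemma measurable_gs (h : Good n N eps) (a : Fin n) (o : Option (Fin n)) :
    Measurable (gs N eps i0 a o) := by
  refine measurable_of_tendsto_metrizable
    (f := fun (k : ℕ) (x : EuclideanSpace ℝ (Fin n)) => ∑ j ∈ Finset.range k, pd a (Wj N eps i0 o j) x) ?_ ?_
  · intro k
    exact (continuous_finsetSum _ fun j _ => cont_pd_Wj h a o j).measurable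
  · rw [tendsto_pi_nhds]
    intro x
    exact (summable_pt (supp_pd a o) x).hasSum.tendsto_sum_nat

lemma sum_ws_sq_le (h : Good n N eps) (x : EuclideanSpace ℝ (Fin n)) :
    ∑ o, (ws N eps i0 o x) ^ 2 ≤ 2 := by
  rw [Fintype.sum_option]
  unfold ws
  rcases cases_ball i0 x with ⟨j, hj⟩ | hx
  · have e : ∀ o, ∑' j, Wj N eps i0 o j x = Wj N eps i0 o j x := fun o => tsum_in (supp_W o) hj
    simp_rw [e]
    exact sum_Wj_sq_le h j x
  · have e : ∀ o, ∑' j, Wj N eps i0 o j x = 0 := fun o => tsum_out (supp_W o) hx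
    simp_rw [e]
    simp

/-- pointwise bound for the powers of the gradient -/
lemma tot_gs_le (h : Good n N eps) {K : ℝ} (hK : KB n N K) {p : ℝ} (hp : 2 ≤ p)
    (x : EuclideanSpace ℝ (Fin n)) :
    (Real.sqrt (1 + ∑ a, ∑ o, (gs N eps i0 a o x) ^ 2)) ^ p
      ≤ (2 * (1 + n * (n + 1) * K ^ 2)) ^ p * (1 + ∑' j, Tp N eps i0 p j x) := by
  have hK0 := hK.1
  have hp0 : 0 ≤ p := by linarith
  rcases cases_ball i0 x with ⟨j, hj⟩ | hx
  · have e : ∀ a o, gs N eps i0 a o x = pd a (Wj N eps i0 o j) x := fun a o => tsum_in (supp_pd a o) hj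
    simp_rw [e]
    rw [tsum_in (supp_Tp p) hj, Tp_in p hj]
    set H := Hf N (rad j * eps j) (x - cen i0 j) with hH
    have hH0 : 0 ≤ H := Hf_nonneg (h.lam_pos j) _
    have htot := tot_pd_Wj_le (i0 := i0) h hK j x
    set A : ℝ := n * (n + 1) * K ^ 2 with hA
    have hA0 : 0 ≤ A := by positivity
    have h1 : Real.sqrt (1 + ∑ a, ∑ o, (pd a (Wj N eps i0 o j) x) ^ 2) ≤ (1 + A) * (1 + H) := by
      rw [Real.sqrt_le_left (by positivity)]
      have h0 : 0 ≤ A * H := by positivity
      nlinarith [mul_nonneg hA0 (sq_nonneg H), mul_nonneg hA0 hH0, mul_nonneg (mul_nonneg hA0 hA0) hH0,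
        sq_nonneg (A * H), sq_nonneg A, sq_nonneg H]
    have h2 : 1 + H ≤ 2 * max 1 H := by
      have := le_max_left 1 H
      have := le_max_right 1 H
      linarith
    have h3 : (max 1 H) ^ p ≤ 1 + H ^ p := by
      rcases le_total 1 H with hc | hc
      · rw [max_eq_right hc]; linarith
      · rw [max_eq_left hc, Real.one_rpow]
        have := Real.rpow_nonneg hH0 p
        linarith
    calc (Real.sqrt (1 + ∑ a, ∑ o, (pd a (Wj N eps i0 o j) x) ^ 2)) ^ p
        ≤ ((2 * (1 + A)) * max 1 H) ^ p := by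
          refine Real.rpow_le_rpow (Real.sqrt_nonneg _) (h1.trans ?_) hp0
          calc (1 + A) * (1 + H) ≤ (1 + A) * (2 * max 1 H) := by gcongr
            _ = _ := by ring
      _ = (2 * (1 + A)) ^ p * (max 1 H) ^ p := Real.mul_rpow (by positivity) (by positivity)
      _ ≤ _ := by gcongr
  · have e : ∀ a o, gs N eps i0 a o x = 0 := fun a o => tsum_out (supp_pd a o) hx
    simp_rw [e]
    rw [tsum_out (supp_Tp p) hx]
    have : (1:ℝ) ≤ 2 * (1 + n * (n + 1) * K ^ 2) := by
      have : (0:ℝ) ≤ n * (n + 1) * K ^ 2 := by positivity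
      linarith
    simpa using Real.one_le_rpow this hp0

end

end Pool.Agent.Lib.MP_105042_an
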