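import Mathlib

open MeasureTheory Metric Filter Topology
open scoped ContDiff ENNReal

namespace Pool.Agent.Lib.MP_105042_an

/-- If `B(ε, y)` is smooth, vanishes for `ε = 0` and for `y` outside a compact set, then all
`y`-derivatives up to any given order become uniformly small as `ε → 0`. -/
lemma param_small {E : Type*} [NormedAddCommGroup E] [NormedSpace ℝ E]
    (B : ℝ × E → ℝ) (hB : ContDiff ℝ ∞ B) (h0 : ∀ y, B (0, y) = 0)
    (K : Set E) (hK : IsCompact K) (hKB : ∀ ε y, y ∉ K → B (ε, y) = 0) (m : ℕ) {δ : ℝ} (hδ : 0 < δ) :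
    ∃ ε0 > 0, ∀ ε : ℝ, |ε| < ε0 → ∀ k ≤ m, ∀ y, ‖iteratedFDeriv ℝ k (fun y => B (ε, y)) y‖ < δ := by
  -- joint continuity
  have hcont : ∀ k : ℕ, Continuous fun p : ℝ × E => iteratedFDeriv ℝ k (fun y => B (p.1, y)) p.2 := by
    intro k
    have h1 : ∀ p : ℝ × E, iteratedFDeriv ℝ k (fun y => B (p.1, y)) p.2
        = (iteratedFDeriv ℝ k B p).compContinuousLinearMap
            (fun _ => ContinuousLinearMap.inr ℝ ℝ E) := by
      intro p
      have h2 : (fun y => B (p.1, y)) = (fun q : ℝ × E => B ((p.1, 0) + q)) ∘ (ContinuousLinearMap.inr ℝ ℝ E) := by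
        ext y; simp
      have h3 : ContDiff ℝ ∞ (fun q : ℝ × E => B ((p.1, 0) + q)) :=
        hB.comp (contDiff_const.add contDiff_id)
      rw [h2, ContinuousLinearMap.iteratedFDeriv_comp_right (ContinuousLinearMap.inr ℝ ℝ E) h3 p.2 (i := k)
        (by exact_mod_cast le_top), iteratedFDeriv_comp_add_left]
      congr 2
      simp
    simp_rw [h1]
    have h4 : Continuous (iteratedFDeriv ℝ k B) := hB.continuous_iteratedFDeriv (by exact_mod_cast le_top)
    exact (ContinuousMultilinearMap.compContinuousLinearMapL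
      (fun _ : Fin k => ContinuousLinearMap.inr ℝ ℝ E)).continuous.comp h4
  -- for each k
  have hk : ∀ k : ℕ, ∃ ε0 > 0, ∀ ε : ℝ, |ε| < ε0 → ∀ y, ‖iteratedFDeriv ℝ k (fun y => B (ε, y)) y‖ < δ := by
    intro k
    have hopen : IsOpen {p : ℝ × E | ‖iteratedFDeriv ℝ k (fun y => B (p.1, y)) p.2‖ < δ} :=
      isOpen_lt (hcont k).norm continuous_const
    have hz : ∀ y, iteratedFDeriv ℝ k (fun y => B (0, y)) y = 0 := by
      intro y
      have : (fun y => B (0, y)) = fun _ => (0:ℝ) := by ext y; exact h0 y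
      rw [this]
      simp
    obtain ⟨u, v, hu, hv, hsu, htv, huv⟩ := generalized_tube_lemma (isCompact_singleton (x := (0:ℝ))) hK hopen (by
      rintro ⟨a, b⟩ ⟨ha, hb⟩
      simp only [Set.mem_singleton_iff] at ha
      subst ha
      simp [hz, hδ])
    obtain ⟨ε0, hε0, hball⟩ := Metric.isOpen_iff.mp hu 0 (hsu rfl)
    refine ⟨ε0, hε0, fun ε hε y => ?_⟩
    by_cases hy : y ∈ K
    · exact huv (Set.mk_mem_prod (hball (by simpa using hε)) (htv hy))
    · have hKc : Kᶜ ∈ 𝓝 y := hK.isClosed.isOpen_compl.mem_nhds hy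
      have : (fun y => B (ε, y)) =ᶠ[𝓝 y] fun _ => (0:ℝ) := by
        filter_upwards [hKc] with z hz using hKB ε z hz
      rw [this.iteratedFDeriv ℝ k |>.eq_of_nhds]
      simpa using hδ
  choose e he1 he2 using hk
  refine ⟨(Finset.range (m + 1)).inf' ⟨0, by simp⟩ e, ?_, ?_⟩
  · exact (Finset.lt_inf'_iff _).mpr (fun k _ => he1 k)
  · intro ε hε k hk y
    refine he2 k ε (lt_of_lt_of_le hε (Finset.inf'_le _ (by simp; omega))) y

end Pool.Agent.Lib.MP_105042_an
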