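import Pool.Agent.Lib.MP_105042_an.Est

open MeasureTheory Metric Filter Topology
open scoped ContDiff ENNReal

namespace Pool.Agent.Lib.MP_105042_an

variable {n : ℕ}

/-- rescaled and translated truncated bubble -/
noncomputable def Wg (N : ℕ) (ε ρ : ℝ) (c : EuclideanSpace ℝ (Fin n)) (o : Option (Fin n))
    (x : EuclideanSpace ℝ (Fin n)) : ℝ := Vf N ε o (ρ⁻¹ • (x - c))

/-- rescaled error -/
noncomputable def bg (N : ℕ) (ε ρ : ℝ) (c : EuclideanSpace ℝ (Fin n)) (o : Option (Fin n))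
    (x : EuclideanSpace ℝ (Fin n)) : ℝ := (ρ⁻¹) ^ 2 * beta N ε o (ρ⁻¹ • (x - c))

section
variable {N : ℕ} {ε ρ : ℝ} {c : EuclideanSpace ℝ (Fin n)} {o : Option (Fin n)}

lemma pd_scaled {F : EuclideanSpace ℝ (Fin n) → ℝ} (hF : Differentiable ℝ F) (ρ : ℝ)
    (c : EuclideanSpace ℝ (Fin n)) (a : Fin n) (x : EuclideanSpace ℝ (Fin n)) :
    pd a (fun x => F (ρ⁻¹ • (x - c))) x = ρ⁻¹ * pd a F (ρ⁻¹ • (x - c)) := by
  unfold pd
  have h1 : HasFDerivAt (fun x : EuclideanSpace ℝ (Fin n) => ρ⁻¹ • (x - c))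
      (ρ⁻¹ • ContinuousLinearMap.id ℝ (EuclideanSpace ℝ (Fin n))) x :=
    ((hasFDerivAt_id x).sub_const c).const_smul ρ⁻¹
  have h2 : HasFDerivAt (fun x => F (ρ⁻¹ • (x - c))) _ x :=
    HasFDerivAt.comp x (f := fun x => ρ⁻¹ • (x - c)) (hF _).hasFDerivAt h1
  rw [h2.fderiv]
  simp

lemma pd_const_mul {F : EuclideanSpace ℝ (Fin n) → ℝ} (r : ℝ) (a : Fin n)
    {x : EuclideanSpace ℝ (Fin n)} (hF : DifferentiableAt ℝ F x) :
    pd a (fun x => r * F x) x = r * pd a F x := by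
  unfold pd
  rw [fderiv_const_mul hF]
  simp

lemma contDiff_pd {F : EuclideanSpace ℝ (Fin n) → ℝ} (hF : ContDiff ℝ ∞ F) (a : Fin n) :
    ContDiff ℝ ∞ (pd a F) :=
  (hF.fderiv_right (m := ∞) (by norm_num)).clm_apply contDiff_const

lemma contDiff_Wg (hε : ε ≠ 0) : ContDiff ℝ ∞ (Wg N ε ρ c o) :=
  (contDiff_Vf N hε o).comp ((contDiff_id.sub contDiff_const).const_smul ρ⁻¹)

lemma pd_Wg (hε : ε ≠ 0) (a : Fin n) (x : EuclideanSpace ℝ (Fin n)) :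
    pd a (Wg N ε ρ c o) x = ρ⁻¹ * pd a (Vf N ε o) (ρ⁻¹ • (x - c)) :=
  pd_scaled ((contDiff_Vf N hε o).differentiable (by norm_num)) ρ c a x

lemma lap_Wg (hε : ε ≠ 0) (x : EuclideanSpace ℝ (Fin n)) :
    lap (Wg N ε ρ c o) x = (ρ⁻¹) ^ 2 * lap (Vf N ε o) (ρ⁻¹ • (x - c)) := by
  unfold lap
  rw [Finset.mul_sum]
  refine Finset.sum_congr rfl fun a _ => ?_
  have h1 : pd a (Wg N ε ρ c o) = fun x => ρ⁻¹ * pd a (Vf N ε o) (ρ⁻¹ • (x - c)) := by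
    ext x; exact pd_Wg hε a x
  have hd := (contDiff_pd (contDiff_Vf N hε o) a).differentiable (by norm_num)
  rw [h1, pd_const_mul, pd_scaled hd]
  · ring
  · exact (hd _).comp x ((differentiableAt_id.sub_const c).const_smul ρ⁻¹)

lemma Xq_scale (y : Option (Fin n) → ℝ) (z : Fin n → Option (Fin n) → ℝ) (r : ℝ) :
    Xq N y (fun a o => r * z a o) = r ^ 2 * Xq N y z := by
  unfold Xq
  simp_rw [mul_pow, ← Finset.mul_sum]
  ring

lemma bg_eq (hε : ε ≠ 0) (x : EuclideanSpace ℝ (Fin n)) :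
    bg N ε ρ c o x = lap (Wg N ε ρ c o) x + cc n N o * Wg N ε ρ c o x
      * Xq N (fun o => Wg N ε ρ c o x) (fun a o => pd a (Wg N ε ρ c o) x) := by
  rw [lap_Wg hε]
  simp_rw [pd_Wg hε]
  rw [Xq_scale]
  unfold bg beta Wg
  ring

lemma bg_deriv_bound (hρ : 0 < ρ) {m : ℕ} {δ : ℝ} 
    (hs : ContDiff ℝ ∞ (beta N ε o))
    (h : ∀ k ≤ m, ∀ y, ‖iteratedFDeriv ℝ k (beta N ε o) y‖ < δ) (k : ℕ) (hk : k ≤ m) (x) :
    ‖iteratedFDeriv ℝ k (bg N ε ρ c o) x‖ ≤ (ρ⁻¹) ^ (2 + k) * δ := by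
  have h1 : bg N ε ρ c o = fun x => ((ρ⁻¹) ^ 2) • (fun x => (beta N ε o ∘ (ρ⁻¹ • ContinuousLinearMap.id ℝ (EuclideanSpace ℝ (Fin n)))) (x - c)) x := by
    ext x; simp [bg]
  have h2 : ContDiff ℝ ∞ (beta N ε o ∘ (ρ⁻¹ • ContinuousLinearMap.id ℝ (EuclideanSpace ℝ (Fin n)))) :=
    hs.comp (ContinuousLinearMap.contDiff _)
  have h3 : ContDiff ℝ ∞ (fun x => (beta N ε o ∘ (ρ⁻¹ • ContinuousLinearMap.id ℝ (EuclideanSpace ℝ (Fin n)))) (x - c)) :=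
    h2.comp (contDiff_id.sub contDiff_const)
  rw [h1, iteratedFDeriv_const_smul_apply' (h3.contDiffAt.of_le (by exact_mod_cast le_top)), norm_smul]
  have h4 : iteratedFDeriv ℝ k (fun x => (beta N ε o ∘ (ρ⁻¹ • ContinuousLinearMap.id ℝ (EuclideanSpace ℝ (Fin n)))) (x - c)) x
     = iteratedFDeriv ℝ k (beta N ε o ∘ (ρ⁻¹ • ContinuousLinearMap.id ℝ (EuclideanSpace ℝ (Fin n)))) (x - c) := by
    simp_rw [sub_eq_add_neg]
    rw [iteratedFDeriv_comp_add_right]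
  rw [h4, ContinuousLinearMap.iteratedFDeriv_comp_right _ hs _ (by exact_mod_cast le_top)]
  have h5 := ContinuousMultilinearMap.norm_compContinuousLinearMap_le
    (iteratedFDeriv ℝ k (beta N ε o) ((ρ⁻¹ • ContinuousLinearMap.id ℝ (EuclideanSpace ℝ (Fin n))) (x - c)))
    (fun _ : Fin k => (ρ⁻¹ • ContinuousLinearMap.id ℝ (EuclideanSpace ℝ (Fin n))))
  have h6 : ‖(ρ⁻¹ • ContinuousLinearMap.id ℝ (EuclideanSpace ℝ (Fin n)))‖ ≤ ρ⁻¹ := by
    rw [norm_smul, Real.norm_of_nonneg (by positivity)]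
    calc ρ⁻¹ * ‖ContinuousLinearMap.id ℝ (EuclideanSpace ℝ (Fin n))‖ ≤ ρ⁻¹ * 1 := by
          gcongr; exact ContinuousLinearMap.norm_id_le
      _ = _ := mul_one _
  have h7 : ∏ _i : Fin k, ‖(ρ⁻¹ • ContinuousLinearMap.id ℝ (EuclideanSpace ℝ (Fin n)))‖ ≤ (ρ⁻¹) ^ k := by
    rw [Finset.prod_const, Finset.card_univ, Fintype.card_fin]
    gcongr
  have h8 := (h k hk ((ρ⁻¹ • ContinuousLinearMap.id ℝ (EuclideanSpace ℝ (Fin n))) (x - c))).le
  have hδ : 0 ≤ δ := (norm_nonneg _).trans h8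
  calc ‖(ρ⁻¹) ^ 2‖ * _ ≤ (ρ⁻¹) ^ 2 * (δ * (ρ⁻¹) ^ k) := by
        rw [Real.norm_of_nonneg (by positivity)]
        gcongr
        exact h5.trans (by gcongr)
    _ = _ := by ring

lemma Hf_scale (hρ : 0 < ρ) (hε : 0 < ε) (x : EuclideanSpace ℝ (Fin n)) :
    ρ⁻¹ * Hf N ε (ρ⁻¹ • (x - c)) = Hf N (ρ * ε) (x - c) := by
  unfold Hf
  rw [norm_smul, Real.norm_of_nonneg (by positivity)]
  have h0 := norm_nonneg (x - c)
  have h1 : ε + ρ⁻¹ * ‖x - c‖ = ρ⁻¹ * (ρ * ε + ‖x - c‖) := by field_simp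
  rw [h1, mul_pow, mul_pow, pow_succ (ρ⁻¹)]
  field_simp
  rw [← mul_pow]
  field_simp
  simp

lemma Wg_zero (hρ : 0 < ρ) {x : EuclideanSpace ℝ (Fin n)} (hx : ρ ≤ ‖x - c‖) :
    Wg N ε ρ c o x = 0 := by
  refine Vf_zero_outer ?_
  rw [norm_smul, Real.norm_of_nonneg (by positivity), inv_mul_eq_div, le_div_iff₀ hρ]
  linarith

lemma Wg_zero' (hρ : 0 < ρ) {x : EuclideanSpace ℝ (Fin n)} (hx : ρ < ‖x - c‖) :
    Wg N ε ρ c o =ᶠ[𝓝 x] fun _ => 0 := by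
  have : {z : EuclideanSpace ℝ (Fin n) | ρ < ‖z - c‖} ∈ 𝓝 x :=
    (isOpen_lt continuous_const (continuous_id.sub continuous_const).norm).mem_nhds hx
  filter_upwards [this] with z hz using Wg_zero hρ (le_of_lt hz)

end

/-- integrability of powers of the majorant and scaling of the integral -/
lemma integrable_Hf {N : ℕ} (hn : n = N + 2) {p : ℝ} (hp : 2 ≤ p) (hN : 1 ≤ N) {lam : ℝ} (hl : 0 < lam)
    (c : EuclideanSpace ℝ (Fin n)) :
    Integrable (fun x => (Hf N lam (x - c)) ^ p) := by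
  have h1 : Integrable (fun x : EuclideanSpace ℝ (Fin n) => (1 + ‖x‖) ^ (-((N + 1) * p))) := by
    refine integrable_one_add_norm ?_
    rw [finrank_euclideanSpace_fin, hn]
    push_cast
    have : (1:ℝ) ≤ N := by exact_mod_cast hN
    nlinarith
  have h2 : (fun x : EuclideanSpace ℝ (Fin n) => (Hf N lam x) ^ p) = fun x => (lam⁻¹) ^ p * (1 + ‖lam⁻¹ • x‖) ^ (-((N + 1) * p)) := by
    ext x
    have h0 := norm_nonneg x
    rw [norm_smul, Real.norm_of_nonneg (by positivity)]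
    have h3 : Hf N lam x = lam⁻¹ * (1 + lam⁻¹ * ‖x‖) ^ (-((N:ℝ) + 1)) := by
      unfold Hf
      have h4 : 1 + lam⁻¹ * ‖x‖ = lam⁻¹ * (lam + ‖x‖) := by field_simp
      rw [h4, Real.rpow_neg (by positivity), show ((N:ℝ) + 1) = ((N + 1 : ℕ):ℝ) by push_cast; ring,
        Real.rpow_natCast, mul_pow, inv_pow, pow_succ lam N]
      field_simp
    rw [h3, Real.mul_rpow (by positivity) (by positivity), ← Real.rpow_mul (by positivity)]
    congr 2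
    ring
  have h3 : Integrable (fun x : EuclideanSpace ℝ (Fin n) => (Hf N lam x) ^ p) := by
    rw [h2]
    exact (h1.comp_smul (by positivity : lam⁻¹ ≠ 0)).const_mul _
  exact h3.comp_sub_right c

lemma integral_Hf {N : ℕ} {p : ℝ} {lam : ℝ} (hl : 0 < lam)
    (c : EuclideanSpace ℝ (Fin n)) :
    ∫ x, (Hf N lam (x - c)) ^ p = lam ^ ((n:ℝ) - p) * ∫ x : EuclideanSpace ℝ (Fin n), (Hf N 1 x) ^ p := by
  rw [integral_sub_right_eq_self (fun x => (Hf N lam x) ^ p) c]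
  have h2 : (fun x : EuclideanSpace ℝ (Fin n) => (Hf N lam x) ^ p) = fun x => (lam⁻¹) ^ p * (fun y => (Hf N 1 y) ^ p) (lam⁻¹ • x) := by
    ext x
    have h0 := norm_nonneg x
    have h3 : Hf N lam x = lam⁻¹ * Hf N 1 (lam⁻¹ • x) := by
      unfold Hf
      rw [norm_smul, Real.norm_of_nonneg (by positivity)]
      have h4 : 1 + lam⁻¹ * ‖x‖ = lam⁻¹ * (lam + ‖x‖) := by field_simp
      rw [h4, mul_pow, one_pow, inv_pow, pow_succ lam N]
      field_simp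
    rw [h3, Real.mul_rpow (by positivity) (Hf_nonneg one_pos _)]
  have h5 := Measure.integral_comp_smul (volume : Measure (EuclideanSpace ℝ (Fin n)))
    (fun y => (Hf N 1 y) ^ p) lam⁻¹
  rw [h2, integral_const_mul, h5, finrank_euclideanSpace_fin, smul_eq_mul,
    ← mul_assoc]
  congr 1
  rw [abs_of_pos (by positivity), Real.rpow_sub hl, Real.rpow_natCast, Real.inv_rpow hl.le,
    inv_pow, inv_inv]
  field_simp

end Pool.Agent.Lib.MP_105042_an
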