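import Pool.Agent.Lib.MP_105042_an.Bubble
import Pool.Agent.Lib.MP_105042_an.Param

open MeasureTheory Metric Filter Topology
open scoped ContDiff ENNReal

namespace Pool.Agent.Lib.MP_105042_an

variable {n : ℕ}

/-- cutoff: 1 on the ball of radius 1/2, supported in the closed unit ball -/
noncomputable def f0 (n : ℕ) : ContDiffBump (0 : EuclideanSpace ℝ (Fin n)) :=
  ⟨1 / 2, 1, by norm_num, by norm_num⟩

/-- auxiliary cutoff -/
noncomputable def f1 (n : ℕ) : ContDiffBump (0 : EuclideanSpace ℝ (Fin n)) :=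
  ⟨1 / 8, 1 / 4, by norm_num, by norm_num⟩

/-- truncated bubble -/
noncomputable def Vf (N : ℕ) (ε : ℝ) (o : Option (Fin n)) (y : EuclideanSpace ℝ (Fin n)) : ℝ :=
  f0 n y * Bf N ε o y

/-- error term -/
noncomputable def beta (N : ℕ) (ε : ℝ) (o : Option (Fin n)) (y : EuclideanSpace ℝ (Fin n)) : ℝ :=
  lap (Vf N ε o) y + cc n N o * Vf N ε o y
    * Xq N (fun o => Vf N ε o y) (fun a o => pd a (Vf N ε o) y)

lemma contDiffAt_Pf (o : Option (Fin n)) (x) : ContDiffAt ℝ ∞ (Pf o) x := by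
  rcases o with _ | i
  · exact contDiffAt_const
  · exact (EuclideanSpace.proj i : EuclideanSpace ℝ (Fin n) →L[ℝ] ℝ).contDiff.contDiffAt

/-- joint smoothness of the bubble -/
lemma contDiffAt_Bf_joint (N : ℕ) (o : Option (Fin n)) {p : ℝ × EuclideanSpace ℝ (Fin n)}
    (h : p.1 ≠ 0 ∨ p.2 ≠ 0) :
    ContDiffAt ℝ ∞ (fun p : ℝ × EuclideanSpace ℝ (Fin n) => Bf N p.1 o p.2) p := by
  have hR := Rf_pos (N := N) h
  unfold Bf bub
  refine (contDiffAt_fst.pow _).mul (((contDiffAt_Pf o p.2).comp p contDiffAt_snd).mul ?_)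
  refine ContDiffAt.rpow_const_of_ne ?_ hR.ne'
  unfold Rf
  exact (contDiffAt_fst.pow _).add ((contDiffAt_snd.norm_sq ℝ).pow _)

lemma contDiffAt_Vf_joint (N : ℕ) (o : Option (Fin n)) {p : ℝ × EuclideanSpace ℝ (Fin n)}
    (h : p.1 ≠ 0 ∨ p.2 ≠ 0) :
    ContDiffAt ℝ ∞ (fun p : ℝ × EuclideanSpace ℝ (Fin n) => Vf N p.1 o p.2) p := by
  unfold Vf
  exact ((f0 n).contDiff.contDiffAt.comp p contDiffAt_snd).mul (contDiffAt_Bf_joint N o h)

lemma contDiff_Vf (N : ℕ) {ε : ℝ} (hε : ε ≠ 0) (o : Option (Fin n)) :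
    ContDiff ℝ ∞ (Vf N ε o) := by
  rw [contDiff_iff_contDiffAt]
  intro x
  have h1 := contDiffAt_Vf_joint N o (p := (ε, x)) (Or.inl hε)
  exact h1.comp x (contDiffAt_const.prodMk contDiffAt_id)

/-- partial `y`-derivative of a function of `(ε, y)` -/
noncomputable def Dx (a : Fin n) (F : ℝ × EuclideanSpace ℝ (Fin n) → ℝ)
    (p : ℝ × EuclideanSpace ℝ (Fin n)) : ℝ :=
  fderiv ℝ F p (0, EuclideanSpace.single a 1)

lemma pd_eq_Dx (a : Fin n) {F : ℝ × EuclideanSpace ℝ (Fin n) → ℝ}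
    {p : ℝ × EuclideanSpace ℝ (Fin n)} (hF : DifferentiableAt ℝ F p) :
    pd a (fun y => F (p.1, y)) p.2 = Dx a F p := by
  unfold pd Dx
  have h1 : HasFDerivAt (fun y : EuclideanSpace ℝ (Fin n) => (p.1, y))
      (ContinuousLinearMap.inr ℝ ℝ (EuclideanSpace ℝ (Fin n))) p.2 := hasFDerivAt_prodMk_right _ _
  have h2 : HasFDerivAt (fun y => F (p.1, y)) _ p.2 := HasFDerivAt.comp p.2 (f := fun y => (p.1, y)) hF.hasFDerivAt h1
  rw [h2.fderiv]
  simp

def Om (n : ℕ) : Set (ℝ × EuclideanSpace ℝ (Fin n)) := {p | p.2 ≠ 0}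

lemma isOpen_Om : IsOpen (Om n) := isOpen_ne.preimage continuous_snd

lemma contDiffOn_Dx (a : Fin n) {F : ℝ × EuclideanSpace ℝ (Fin n) → ℝ}
    (hF : ContDiffOn ℝ ∞ F (Om n)) : ContDiffOn ℝ ∞ (Dx a F) (Om n) := by
  unfold Dx
  exact (hF.fderiv_of_isOpen isOpen_Om (by norm_num)).clm_apply contDiffOn_const

/-- joint version of `V` -/
noncomputable def Vh (N : ℕ) (o : Option (Fin n)) (p : ℝ × EuclideanSpace ℝ (Fin n)) : ℝ :=
  Vf N p.1 o p.2

lemma contDiffOn_Vh (N : ℕ) (o : Option (Fin n)) : ContDiffOn ℝ ∞ (Vh N o) (Om n) := fun _ hp =>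
  (contDiffAt_Vf_joint N o (Or.inr hp)).contDiffWithinAt

noncomputable def betah (N : ℕ) (o : Option (Fin n)) (p : ℝ × EuclideanSpace ℝ (Fin n)) : ℝ :=
  (∑ a, Dx a (Dx a (Vh N o)) p) + cc n N o * Vh N o p
    * Xq N (fun o => Vh N o p) (fun a o => Dx a (Vh N o) p)

lemma pd_Vf_eq (N : ℕ) (o : Option (Fin n)) (a : Fin n) {ε : ℝ} {y : EuclideanSpace ℝ (Fin n)}
    (hy : y ≠ 0) : pd a (Vf N ε o) y = Dx a (Vh N o) (ε, y) :=
  pd_eq_Dx (p := (ε, y)) a
    (((contDiffOn_Vh N o).differentiableOn (by norm_num)).differentiableAt (isOpen_Om.mem_nhds hy))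

lemma pd_pd_Vf_eq (N : ℕ) (o : Option (Fin n)) (a : Fin n) {ε : ℝ} {y : EuclideanSpace ℝ (Fin n)}
    (hy : y ≠ 0) : pd a (pd a (Vf N ε o)) y = Dx a (Dx a (Vh N o)) (ε, y) := by
  have h1 : pd a (Vf N ε o) =ᶠ[𝓝 y] fun y => Dx a (Vh N o) (ε, y) := by
    filter_upwards [isOpen_ne.mem_nhds hy] with z hz using pd_Vf_eq N o a hz
  rw [pd, h1.fderiv_eq]
  exact pd_eq_Dx (p := (ε, y)) a
    (((contDiffOn_Dx a (contDiffOn_Vh N o)).differentiableOn (by norm_num)).differentiableAt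
      (isOpen_Om.mem_nhds hy))

lemma beta_eq_betah (N : ℕ) (o : Option (Fin n)) {ε : ℝ} {y : EuclideanSpace ℝ (Fin n)}
    (hy : y ≠ 0) : beta N ε o y = betah N o (ε, y) := by
  unfold beta betah lap
  simp_rw [pd_pd_Vf_eq N o _ hy, pd_Vf_eq N _ _ hy]
  rfl

lemma contDiffOn_betah (hn : 2 ≤ n) (N : ℕ) (o : Option (Fin n)) :
    ContDiffOn ℝ ∞ (betah N o) (Om n) := by
  have hV := fun o => contDiffOn_Vh (n := n) N o
  have hD := fun a o => contDiffOn_Dx a (hV o)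
  unfold betah Xq Ef
  refine ContDiffOn.add (ContDiffOn.sum fun a _ => contDiffOn_Dx a (hD a o)) ?_
  refine (contDiffOn_const.mul (hV o)).mul ?_
  refine ContDiffOn.add ?_ ?_
  · exact (ContDiffOn.sum fun k _ => ((hV none).pow 2).pow k).mul
      (ContDiffOn.sum fun a _ => (hD a none).pow 2)
  · refine ContDiffOn.mul (ContDiffOn.div ?_ ?_ ?_) ?_
    · exact contDiffOn_const.mul ((ContDiffOn.sum fun i _ => (hV (some i)).pow 2).pow _)
    · exact contDiffOn_const.add ((contDiffOn_const.sub (contDiffOn_const.mul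
        (contDiffOn_const.sub ((hV none).pow 2)))).pow 2)
    · intro p _
      exact (Ef_pos hn _).ne'
    · exact ContDiffOn.sum fun i _ => ContDiffOn.sum fun a _ => (hD a (some i)).pow 2

lemma Vf_eq_Bf {N : ℕ} {ε : ℝ} {o : Option (Fin n)} {y : EuclideanSpace ℝ (Fin n)}
    (hy : ‖y‖ < 1 / 2) : Vf N ε o =ᶠ[𝓝 y] Bf N ε o := by
  have : ball (0 : EuclideanSpace ℝ (Fin n)) (1 / 2) ∈ 𝓝 y := isOpen_ball.mem_nhds (by simpa using hy)
  filter_upwards [this] with z hz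
  have : f0 n z = 1 := (f0 n).one_of_mem_closedBall (ball_subset_closedBall hz)
  simp [Vf, this]

lemma pd_congr {a : Fin n} {w v : EuclideanSpace ℝ (Fin n) → ℝ} {y} (h : w =ᶠ[𝓝 y] v) :
    pd a w y = pd a v y := by
  unfold pd; rw [h.fderiv_eq]

lemma pd_congr' {a : Fin n} {w v : EuclideanSpace ℝ (Fin n) → ℝ} {y} (h : w =ᶠ[𝓝 y] v) :
    pd a w =ᶠ[𝓝 y] pd a v := by
  filter_upwards [h.eventuallyEq_nhds] with z hz using pd_congr hz

lemma lap_congr {w v : EuclideanSpace ℝ (Fin n) → ℝ} {y} (h : w =ᶠ[𝓝 y] v) :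
    lap w y = lap v y := by
  unfold lap
  exact Finset.sum_congr rfl fun a _ => pd_congr (pd_congr' h)

lemma beta_zero_inner {N : ℕ} (hN : 1 ≤ N) (hn : n = N + 2) {ε : ℝ} (hε : ε ≠ 0)
    (o : Option (Fin n)) {y : EuclideanSpace ℝ (Fin n)} (hy : ‖y‖ < 1 / 2) : beta N ε o y = 0 := by
  unfold beta
  have h1 := fun o => Vf_eq_Bf (N := N) (ε := ε) (o := o) hy
  rw [lap_congr (h1 o), lap_Bf hN hn o (Or.inl hε)]
  have h2 : (fun o => Vf N ε o y) = fun o => Bf N ε o y := by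
    ext o; exact (h1 o).eq_of_nhds
  have h3 : (fun a o => pd a (Vf N ε o) y) = fun a o => pd a (Bf N ε o) y := by
    ext a o; exact pd_congr (h1 o)
  rw [h2, h3, Xq_Bf hN hn (Or.inl hε), (h1 o).eq_of_nhds]
  ring

lemma Vf_zero_outer {N : ℕ} {ε : ℝ} {o : Option (Fin n)} {y : EuclideanSpace ℝ (Fin n)}
    (hy : 1 ≤ ‖y‖) : Vf N ε o y = 0 := by
  have : f0 n y = 0 := (f0 n).zero_of_le_dist (by simpa [f0] using hy)
  simp [Vf, this]

lemma Vf_zero_outer' {N : ℕ} {ε : ℝ} {o : Option (Fin n)} {y : EuclideanSpace ℝ (Fin n)}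
    (hy : 1 < ‖y‖) : Vf N ε o =ᶠ[𝓝 y] fun _ => 0 := by
  have : {z : EuclideanSpace ℝ (Fin n) | 1 < ‖z‖} ∈ 𝓝 y :=
    (isOpen_lt continuous_const continuous_norm).mem_nhds hy
  filter_upwards [this] with z hz using Vf_zero_outer (le_of_lt hz)

lemma pd_zero (a : Fin n) (y) : pd a (fun _ : EuclideanSpace ℝ (Fin n) => (0:ℝ)) y = 0 := by
  simp [pd]

lemma beta_zero_outer {N : ℕ} {ε : ℝ} {o : Option (Fin n)} {y : EuclideanSpace ℝ (Fin n)}
    (hy : 1 < ‖y‖) : beta N ε o y = 0 := by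
  unfold beta
  rw [Vf_zero_outer hy.le, lap_congr (Vf_zero_outer' hy)]
  have : lap (fun _ : EuclideanSpace ℝ (Fin n) => (0:ℝ)) y = 0 := by
    unfold lap
    refine Finset.sum_eq_zero fun a _ => ?_
    have : pd a (fun _ : EuclideanSpace ℝ (Fin n) => (0:ℝ)) = fun _ => 0 := by
      ext z; exact pd_zero a z
    rw [this, pd_zero]
  rw [this]; ring

lemma kap_pos {N : ℕ} (hN : 1 ≤ N) (o : Option (Fin n)) : kap N o ≠ 0 := by
  rcases o with _ | i <;> simp [kap]; omega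

lemma Vh_zero {N : ℕ} (hN : 1 ≤ N) (o : Option (Fin n)) (y : EuclideanSpace ℝ (Fin n)) :
    Vh N o (0, y) = 0 := by
  simp [Vh, Vf, Bf, bub, kap_pos hN]

/-- the error tends to zero in `C^m` -/
lemma beta_small {N : ℕ} (hN : 1 ≤ N) (hn : n = N + 2) (m : ℕ) {δ : ℝ} (hδ : 0 < δ) :
    ∃ ε0 > 0, ∀ ε : ℝ, 0 < ε → ε < ε0 → ∀ o : Option (Fin n), ∀ k ≤ m, ∀ y,
      ‖iteratedFDeriv ℝ k (beta N ε o) y‖ < δ := by
  have hn2 : 2 ≤ n := by omega
  have main : ∀ o : Option (Fin n), ∃ ε0 > 0, ∀ ε : ℝ, 0 < ε → ε < ε0 → ∀ k ≤ m, ∀ y,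
      ‖iteratedFDeriv ℝ k (beta N ε o) y‖ < δ := by
    intro o
    set B : ℝ × EuclideanSpace ℝ (Fin n) → ℝ := fun p => (1 - f1 n p.2) * betah N o p with hBdef
    have hBs : ContDiff ℝ ∞ B := by
      rw [contDiff_iff_contDiffAt]
      intro p
      by_cases hp : p.2 = 0
      · -- locally zero
        have hev : B =ᶠ[𝓝 p] fun _ => 0 := by
          have h1 : (fun q : ℝ × EuclideanSpace ℝ (Fin n) => q.2) ⁻¹' (ball 0 (1 / 8)) ∈ 𝓝 p :=
            (isOpen_ball.preimage continuous_snd).mem_nhds (by simp [hp])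
          filter_upwards [h1] with q hq
          have : f1 n q.2 = 1 := (f1 n).one_of_mem_closedBall (ball_subset_closedBall hq)
          simp [hBdef, this]
        exact contDiffAt_const.congr_of_eventuallyEq hev
      · have h2 : ContDiffAt ℝ ∞ (betah N o) p :=
          (contDiffOn_betah hn2 N o).contDiffAt (isOpen_Om.mem_nhds hp)
        exact (contDiffAt_const.sub ((f1 n).contDiff.contDiffAt.comp p contDiffAt_snd)).mul h2
    have hB0 : ∀ y, B (0, y) = 0 := by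
      intro y
      by_cases hy : y = 0
      · have : f1 n y = 1 := (f1 n).one_of_mem_closedBall (by simp [hy, f1])
        simp [hBdef, this]
      · have hz : ∀ o, ∀ z, Vh N o ((0:ℝ), (z : EuclideanSpace ℝ (Fin n))) = 0 := fun o z => Vh_zero hN o z
        have hD : ∀ a, ∀ z : EuclideanSpace ℝ (Fin n), z ≠ 0 → Dx a (Vh N o) ((0:ℝ), z) = 0 := by
          intro a z hz0
          rw [← pd_Vf_eq N o a hz0]
          have : Vf N 0 o = fun _ : EuclideanSpace ℝ (Fin n) => (0:ℝ) := by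
            ext w; exact hz o w
          rw [this, pd_zero]
        have hDD : ∀ a, Dx a (Dx a (Vh N o)) ((0:ℝ), y) = 0 := by
          intro a
          rw [← pd_pd_Vf_eq N o a hy]
          have : Vf N 0 o = fun _ : EuclideanSpace ℝ (Fin n) => (0:ℝ) := by
            ext w; exact hz o w
          rw [this]
          have : pd a (fun _ : EuclideanSpace ℝ (Fin n) => (0:ℝ)) = fun _ => 0 := by
            ext z; exact pd_zero a z
          rw [this, pd_zero]
        simp [hBdef, betah, hz, hDD]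
    have hBK : ∀ ε y, y ∉ closedBall (0 : EuclideanSpace ℝ (Fin n)) 1 → B (ε, y) = 0 := by
      intro ε y hy
      have hy1 : 1 < ‖y‖ := by simpa using hy
      have hy0 : y ≠ 0 := by
        intro h; rw [h] at hy1; simp at hy1; linarith
      have := beta_eq_betah N o (ε := ε) hy0
      simp only [hBdef]
      rw [← this, beta_zero_outer hy1, mul_zero]
    obtain ⟨ε0, hε0, h⟩ := param_small B hBs hB0 _ (isCompact_closedBall 0 1) hBK m hδ
    refine ⟨ε0, hε0, fun ε hε hε' k hk y => ?_⟩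
    have heq : beta N ε o = fun y => B (ε, y) := by
      ext y
      by_cases hy0 : y = 0
      · have h1 : f1 n y = 1 := (f1 n).one_of_mem_closedBall (by simp [hy0, f1])
        rw [beta_zero_inner hN hn hε.ne' o (by simp [hy0])]
        simp [hBdef, h1]
      · by_cases hy : ‖y‖ < 1 / 2
        · simp only [hBdef]
          rw [← beta_eq_betah N o hy0, beta_zero_inner hN hn hε.ne' o hy, mul_zero]
        · have h1 : f1 n y = 0 := (f1 n).zero_of_le_dist (by simp [f1]; linarith)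
          simp only [hBdef]
          rw [← beta_eq_betah N o hy0, h1]; ring
    rw [heq]
    exact h ε (by rwa [abs_of_pos hε]) k hk y
  choose e he1 he2 using main
  refine ⟨Finset.univ.inf' ⟨none, by simp⟩ e, ?_, ?_⟩
  · exact (Finset.lt_inf'_iff _).mpr (fun k _ => he1 k)
  · intro ε hε hε' o k hk y
    exact he2 o ε hε (lt_of_lt_of_le hε' (Finset.inf'_le _ (Finset.mem_univ o))) k hk y

end Pool.Agent.Lib.MP_105042_an
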