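import Pool.Agent.Lib.MP_105042_an.Pieces

open MeasureTheory Metric Filter Topology
open scoped ContDiff ENNReal

namespace Pool.Agent.Lib.MP_105042_an

variable {n : ℕ}

/-- radii of the disjoint balls -/
noncomputable def rad (j : ℕ) : ℝ := (1 / 4) ^ (j + 2)

/-- centres of the disjoint balls -/
noncomputable def cen (i0 : Fin n) (j : ℕ) : EuclideanSpace ℝ (Fin n) :=
  EuclideanSpace.single i0 ((1 / 4 : ℝ) ^ (j + 1))

lemma rad_pos (j : ℕ) : 0 < rad j := by unfold rad; positivity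

lemma rad_le (j : ℕ) : rad j ≤ 1 / 16 := by
  unfold rad
  calc ((1:ℝ) / 4) ^ (j + 2) ≤ (1 / 4) ^ 2 := pow_le_pow_of_le_one (by norm_num) (by norm_num) (by omega)
    _ = _ := by norm_num

lemma cen_coord (i0 : Fin n) (j : ℕ) : (cen i0 j) i0 = 4 * rad j := by
  unfold cen rad
  simp
  ring

lemma norm_cen (i0 : Fin n) (j : ℕ) : ‖cen i0 j‖ = 4 * rad j := by
  unfold cen rad
  rw [EuclideanSpace.norm_single, Real.norm_of_nonneg (by positivity)]
  ring

lemma coord_bounds {i0 : Fin n} {j : ℕ} {x : EuclideanSpace ℝ (Fin n)}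
    (h : ‖x - cen i0 j‖ ≤ rad j) : 3 * rad j ≤ x i0 ∧ x i0 ≤ 5 * rad j := by
  have h1 := coord_le (x - cen i0 j) i0
  have h2 : (x - cen i0 j) i0 = x i0 - 4 * rad j := by
    rw [← cen_coord i0 j]; rfl
  rw [h2] at h1
  have h3 := abs_le.mp (h1.trans h)
  constructor <;> linarith [h3.1, h3.2]

lemma rad_lt {i j : ℕ} (h : i < j) : rad j ≤ rad i / 4 := by
  unfold rad
  calc ((1:ℝ) / 4) ^ (j + 2) ≤ (1 / 4) ^ (i + 2 + 1) :=
        pow_le_pow_of_le_one (by norm_num) (by norm_num) (by omega)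
    _ = _ := by rw [pow_succ]; ring

lemma disj_balls {i0 : Fin n} {i j : ℕ} (hij : i ≠ j) {x : EuclideanSpace ℝ (Fin n)}
    (h : ‖x - cen i0 j‖ ≤ rad j) : rad i < ‖x - cen i0 i‖ := by
  by_contra hc
  push Not at hc
  have h1 := coord_bounds h
  have h2 := coord_bounds hc
  have hj := rad_pos j
  have hi := rad_pos i
  rcases lt_or_gt_of_ne hij with hlt | hlt
  · have := rad_lt hlt
    linarith [h1.1, h1.2, h2.1, h2.2]
  · have := rad_lt hlt
    linarith [h1.1, h1.2, h2.1, h2.2]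

/-- a family of functions supported in the balls -/
def Supp (i0 : Fin n) (F : ℕ → EuclideanSpace ℝ (Fin n) → ℝ) : Prop :=
  ∀ j x, rad j < ‖x - cen i0 j‖ → F j x = 0

lemma tsum_in {i0 : Fin n} {F : ℕ → EuclideanSpace ℝ (Fin n) → ℝ} (hF : Supp i0 F) {j : ℕ}
    {x : EuclideanSpace ℝ (Fin n)} (h : ‖x - cen i0 j‖ ≤ rad j) : ∑' i, F i x = F j x :=
  tsum_eq_single j fun i hi => hF i x (disj_balls hi h)

lemma tsum_out {i0 : Fin n} {F : ℕ → EuclideanSpace ℝ (Fin n) → ℝ} (hF : Supp i0 F)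
    {x : EuclideanSpace ℝ (Fin n)} (h : ∀ j, rad j < ‖x - cen i0 j‖) : ∑' i, F i x = 0 := by
  rw [← tsum_zero (β := ℕ)]
  exact tsum_congr fun i => hF i x (h i)

lemma cases_ball (i0 : Fin n) (x : EuclideanSpace ℝ (Fin n)) :
    (∃ j, ‖x - cen i0 j‖ ≤ rad j) ∨ ∀ j, rad j < ‖x - cen i0 j‖ := by
  by_cases h : ∃ j, ‖x - cen i0 j‖ ≤ rad j
  · exact Or.inl h
  · push Not at h; exact Or.inr h

lemma summable_pt {i0 : Fin n} {F : ℕ → EuclideanSpace ℝ (Fin n) → ℝ} (hF : Supp i0 F)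
    (x : EuclideanSpace ℝ (Fin n)) : Summable fun i => F i x := by
  rcases cases_ball i0 x with ⟨j, hj⟩ | h
  · exact summable_of_ne_finset_zero (s := {j}) fun i hi =>
      hF i x (disj_balls (by simpa using hi) hj)
  · exact summable_of_ne_finset_zero (s := ∅) fun i _ => hF i x (h i)

/-- the requirements on the sequence of concentration scales -/
structure Good (n N : ℕ) (eps : ℕ → ℝ) : Prop where
  hN : 1 ≤ N
  hn : n = N + 2
  pos : ∀ j, 0 < eps j
  le : ∀ j, eps j ≤ (1 / 2) ^ j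
  small : ∀ j, ∀ o : Option (Fin n), ∀ k ≤ j, ∀ y : EuclideanSpace ℝ (Fin n),
    ‖iteratedFDeriv ℝ k (beta N (eps j) o) y‖ < (rad j) ^ (2 + j) * (1 / 2) ^ j

lemma exists_good {n N : ℕ} (hN : 1 ≤ N) (hn : n = N + 2) : ∃ eps, Good n N eps := by
  have h : ∀ j : ℕ, ∃ e : ℝ, 0 < e ∧ e ≤ (1 / 2) ^ j ∧ ∀ o : Option (Fin n), ∀ k ≤ j,
      ∀ y : EuclideanSpace ℝ (Fin n),
      ‖iteratedFDeriv ℝ k (beta N e o) y‖ < (rad j) ^ (2 + j) * (1 / 2) ^ j := by
    intro j
    have hr := rad_pos j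
    obtain ⟨ε0, h0, h⟩ := beta_small (n := n) hN hn j (δ := (rad j) ^ (2 + j) * (1 / 2) ^ j) (by positivity)
    refine ⟨min (ε0 / 2) ((1 / 2) ^ j), by positivity, min_le_right _ _, ?_⟩
    intro o k hk y
    refine h _ (by positivity) ?_ o k hk y
    exact (min_le_left _ _).trans_lt (by linarith)
  choose eps h1 h2 h3 using h
  exact ⟨eps, hN, hn, h1, h2, h3⟩

section
variable {N : ℕ} {eps : ℕ → ℝ} {i0 : Fin n}

lemma Good.le_one (h : Good n N eps) (j : ℕ) : eps j ≤ 1 :=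
  (h.le j).trans (pow_le_one₀ (by norm_num) (by norm_num))

/-- the `j`-th bubble -/
noncomputable def Wj (N : ℕ) (eps : ℕ → ℝ) (i0 : Fin n) (o : Option (Fin n)) (j : ℕ) :
    EuclideanSpace ℝ (Fin n) → ℝ := Wg N (eps j) (rad j) (cen i0 j) o

/-- the `j`-th error -/
noncomputable def bj (N : ℕ) (eps : ℕ → ℝ) (i0 : Fin n) (o : Option (Fin n)) (j : ℕ) :
    EuclideanSpace ℝ (Fin n) → ℝ := bg N (eps j) (rad j) (cen i0 j) o

/-- sum of the bubbles -/
noncomputable def ws (N : ℕ) (eps : ℕ → ℝ) (i0 : Fin n) (o : Option (Fin n))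
    (x : EuclideanSpace ℝ (Fin n)) : ℝ := ∑' j, Wj N eps i0 o j x

/-- sum of the partial derivatives -/
noncomputable def gs (N : ℕ) (eps : ℕ → ℝ) (i0 : Fin n) (a : Fin n) (o : Option (Fin n))
    (x : EuclideanSpace ℝ (Fin n)) : ℝ := ∑' j, pd a (Wj N eps i0 o j) x

/-- sum of the errors -/
noncomputable def bs (N : ℕ) (eps : ℕ → ℝ) (i0 : Fin n) (o : Option (Fin n))
    (x : EuclideanSpace ℝ (Fin n)) : ℝ := ∑' j, bj N eps i0 o j x

lemma supp_W (o : Option (Fin n)) : Supp i0 (Wj N eps i0 o) := fun j _ hx =>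
  Wg_zero (rad_pos j) hx.le

lemma supp_pd (a : Fin n) (o : Option (Fin n)) : Supp i0 (fun j => pd a (Wj N eps i0 o j)) := by
  intro j x hx
  have := Wg_zero' (N := N) (ε := eps j) (o := o) (rad_pos j) hx
  change pd a (Wg N (eps j) (rad j) (cen i0 j) o) x = 0
  rw [pd_congr this, pd_zero]

lemma supp_lap (o : Option (Fin n)) : Supp i0 (fun j => lap (Wj N eps i0 o j)) := by
  intro j x hx
  have := Wg_zero' (N := N) (ε := eps j) (o := o) (rad_pos j) hx
  change lap (Wg N (eps j) (rad j) (cen i0 j) o) x = 0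
  rw [lap_congr this]
  unfold lap
  refine Finset.sum_eq_zero fun a _ => ?_
  have : pd a (fun _ : EuclideanSpace ℝ (Fin n) => (0:ℝ)) = fun _ => 0 := by
    ext y; exact pd_zero a y
  rw [this, pd_zero]

lemma supp_b (o : Option (Fin n)) : Supp i0 (bj N eps i0 o) := by
  intro j x hx
  have hr := rad_pos j
  unfold bj bg
  rw [beta_zero_outer, mul_zero]
  rw [norm_smul, Real.norm_of_nonneg (by positivity), inv_mul_eq_div, lt_div_iff₀ hr]
  linarith

/-- the pointwise equation -/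
lemma identity (h : Good n N eps) (o : Option (Fin n)) (x : EuclideanSpace ℝ (Fin n)) :
    ∑' j, lap (Wj N eps i0 o j) x = - cc n N o * ws N eps i0 o x
      * Xq N (fun o => ws N eps i0 o x) (fun a o => gs N eps i0 a o x) + bs N eps i0 o x := by
  rcases cases_ball i0 x with ⟨j, hj⟩ | hx
  · rw [tsum_in (supp_lap o) hj]
    unfold ws gs bs
    rw [tsum_in (supp_b o) hj, tsum_in (supp_W o) hj]
    have e1 : (fun o => ∑' j, Wj N eps i0 o j x) = fun o => Wj N eps i0 o j x := by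
      ext o; exact tsum_in (supp_W o) hj
    have e2 : (fun a o => ∑' j, pd a (Wj N eps i0 o j) x) = fun a o => pd a (Wj N eps i0 o j) x := by
      ext a o; exact tsum_in (supp_pd a o) hj
    rw [e1, e2]
    unfold bj
    rw [bg_eq (h.pos j).ne']
    unfold Wj
    ring
  · rw [tsum_out (supp_lap o) hx]
    unfold ws bs
    rw [tsum_out (supp_b o) hx, tsum_out (supp_W o) hx]
    ring

lemma contDiff_beta (h : Good n N eps) (j : ℕ) (o : Option (Fin n)) :
    ContDiff ℝ ∞ (beta N (eps j) o) := by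
  have hn2 : 2 ≤ n := by have := h.hN; have := h.hn; omega
  have hV : ∀ o : Option (Fin n), ContDiff ℝ ∞ (Vf N (eps j) o) := fun o => contDiff_Vf N (h.pos j).ne' o
  have hD : ∀ (a : Fin n) (o : Option (Fin n)), ContDiff ℝ ∞ (pd a (Vf N (eps j) o)) := fun a o => contDiff_pd (hV o) a
  unfold beta Xq Ef lap
  refine ContDiff.add (ContDiff.sum fun a _ => contDiff_pd (hD a o) a) ?_
  refine (contDiff_const.mul (hV o)).mul ?_
  refine ContDiff.add ?_ ?_
  · exact (ContDiff.sum fun k _ => ((hV none).pow 2).pow k).mul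
      (ContDiff.sum fun a _ => (hD a none).pow 2)
  · refine ContDiff.mul (ContDiff.div ?_ ?_ ?_) ?_
    · exact contDiff_const.mul ((ContDiff.sum fun i _ => (hV (some i)).pow 2).pow _)
    · exact contDiff_const.add ((contDiff_const.sub (contDiff_const.mul
        (contDiff_const.sub ((hV none).pow 2)))).pow 2)
    · intro p
      exact (Ef_pos hn2 _).ne'
    · exact ContDiff.sum fun i _ => ContDiff.sum fun a _ => (hD a (some i)).pow 2

lemma contDiff_bj (h : Good n N eps) (o : Option (Fin n)) (j : ℕ) :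
    ContDiff ℝ ∞ (bj N eps i0 o j) := by
  unfold bj bg
  exact contDiff_const.mul ((contDiff_beta h j o).comp
    ((contDiff_id.sub contDiff_const).const_smul (rad j)⁻¹))

lemma bj_deriv (h : Good n N eps) (o : Option (Fin n)) (j k : ℕ) (hk : k ≤ j)
    (x : EuclideanSpace ℝ (Fin n)) :
    ‖iteratedFDeriv ℝ k (bj N eps i0 o j) x‖ ≤ (1 / 2) ^ j := by
  have hr := rad_pos j
  have hr1 : rad j ≤ 1 := (rad_le j).trans (by norm_num)
  refine (bg_deriv_bound (c := cen i0 j) hr (contDiff_beta h j o) (h.small j o) k hk x).trans ?_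
  have h1 : (rad j)⁻¹ ^ (2 + k) ≤ (rad j)⁻¹ ^ (2 + j) :=
    pow_le_pow_right₀ ((one_le_inv₀ hr).mpr hr1) (by omega)
  calc (rad j)⁻¹ ^ (2 + k) * ((rad j) ^ (2 + j) * (1 / 2) ^ j)
      ≤ (rad j)⁻¹ ^ (2 + j) * ((rad j) ^ (2 + j) * (1 / 2) ^ j) := by gcongr
    _ = ((rad j)⁻¹ * rad j) ^ (2 + j) * (1 / 2) ^ j := by rw [mul_pow]; ring
    _ = _ := by rw [inv_mul_cancel₀ hr.ne']; simp

lemma contDiff_bs (h : Good n N eps) (o : Option (Fin n)) : ContDiff ℝ ∞ (bs N eps i0 o) := by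
  unfold bs
  refine contDiff_tsum_of_eventually (v := fun _ j => (1 / 2 : ℝ) ^ j) (fun j => contDiff_bj h o j) ?_ ?_
  · intro k _
    exact summable_geometric_of_lt_one (by norm_num) (by norm_num)
  · intro k _
    rw [Nat.cofinite_eq_atTop]
    filter_upwards [eventually_ge_atTop k] with j hj x
    exact bj_deriv h o j k hj x

lemma bj_le (h : Good n N eps) (o : Option (Fin n)) (j : ℕ) (x : EuclideanSpace ℝ (Fin n)) :
    |bj N eps i0 o j x| ≤ (1 / 2) ^ j := by
  have := bj_deriv (i0 := i0) h o j 0 (Nat.zero_le _) x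
  rwa [norm_iteratedFDeriv_zero, Real.norm_eq_abs] at this

lemma bs_le (h : Good n N eps) (o : Option (Fin n)) (x : EuclideanSpace ℝ (Fin n)) :
    |bs N eps i0 o x| ≤ 1 := by
  rcases cases_ball i0 x with ⟨j, hj⟩ | hx
  · unfold bs
    rw [tsum_in (supp_b o) hj]
    exact (bj_le h o j x).trans (pow_le_one₀ (by norm_num) (by norm_num))
  · unfold bs
    rw [tsum_out (supp_b o) hx]
    simp

end

end Pool.Agent.Lib.MP_105042_an
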