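import Pool.Agent.Lib.MP_105042_an.Integ

open MeasureTheory Metric Filter Topology
open scoped ContDiff ENNReal

namespace Pool.Agent.Lib.MP_105042_an

variable {n : ℕ}

/-- integration by parts against a test function -/
lemma ibp {f φ : EuclideanSpace ℝ (Fin n) → ℝ} (hf : ContDiff ℝ ∞ f) (hφ : ContDiff ℝ ∞ φ)
    (hc : HasCompactSupport φ) (a : Fin n) :
    ∫ x, f x * pd a φ x = - ∫ x, pd a f x * φ x := by
  have hpf : Continuous (pd a f) := (contDiff_pd hf a).continuous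
  have hpφ : Continuous (pd a φ) := (contDiff_pd hφ a).continuous
  have hcp : HasCompactSupport (pd a φ) :=
    (hc.fderiv (𝕜 := ℝ)).comp_left (g := fun L : EuclideanSpace ℝ (Fin n) →L[ℝ] ℝ => L (EuclideanSpace.single a 1)) (by simp)
  refine integral_mul_fderiv_eq_neg_fderiv_mul_of_integrable ?_ ?_ ?_ ?_ ?_
  · exact (hpf.mul hφ.continuous).integrable_of_hasCompactSupport hc.mul_left
  · exact (hf.continuous.mul hpφ).integrable_of_hasCompactSupport hcp.mul_left
  · exact (hf.continuous.mul hφ.continuous).integrable_of_hasCompactSupport hc.mul_left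
  · intro x _; exact (hf.differentiable (by norm_num)) x
  · intro x _; exact (hφ.differentiable (by norm_num)) x

lemma Ef_ge {n : ℕ} (hn : 2 ≤ n) (q : ℝ) : 1 ≤ Ef n q := by
  unfold Ef
  have : (2 : ℝ) ≤ n := by exact_mod_cast hn
  nlinarith [sq_nonneg (1 - n * (1 - q))]

/-- constant bounding `Xq` -/
noncomputable def CX (N : ℕ) : ℝ := N * 9 ^ N + N ^ 2 * 9 ^ N

lemma CX_nonneg (N : ℕ) : 0 ≤ CX N := by unfold CX; positivity

lemma Xq_bound {N : ℕ} (hn : 2 ≤ n) {y : Option (Fin n) → ℝ} (z : Fin n → Option (Fin n) → ℝ)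
    (h1 : (y none) ^ 2 ≤ 9) (h2 : ∑ i, (y (some i)) ^ 2 ≤ 9) :
    0 ≤ Xq N y z ∧ Xq N y z ≤ CX N * ∑ a, ∑ o, (z a o) ^ 2 := by
  have hE := Ef_ge hn ((y none) ^ 2)
  have hs0 : 0 ≤ ∑ i, (y (some i)) ^ 2 := Finset.sum_nonneg fun i _ => sq_nonneg _
  have hA0 : 0 ≤ ∑ a, (z a none) ^ 2 := Finset.sum_nonneg fun i _ => sq_nonneg _
  have hB0 : 0 ≤ ∑ i, ∑ a, (z a (some i)) ^ 2 :=
    Finset.sum_nonneg fun i _ => Finset.sum_nonneg fun i _ => sq_nonneg _
  have htot : ∑ a, ∑ o, (z a o) ^ 2 = ∑ a, (z a none) ^ 2 + ∑ i, ∑ a, (z a (some i)) ^ 2 := by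
    simp_rw [Fintype.sum_option]
    rw [Finset.sum_add_distrib, Finset.sum_comm (s := Finset.univ (α := Fin n)) (t := Finset.univ (α := Fin n))]
  have hG0 : 0 ≤ ∑ k ∈ Finset.range N, ((y none) ^ 2) ^ k := Finset.sum_nonneg fun i _ => by positivity
  have hG1 : ∑ k ∈ Finset.range N, ((y none) ^ 2) ^ k ≤ N * 9 ^ N := by
    calc ∑ k ∈ Finset.range N, ((y none) ^ 2) ^ k ≤ ∑ k ∈ Finset.range N, (9:ℝ) ^ N := by
          refine Finset.sum_le_sum fun k hk => ?_
          have hk' : k ≤ N := (Finset.mem_range.mp hk).le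
          calc ((y none) ^ 2) ^ k ≤ (9:ℝ) ^ k := by gcongr
            _ ≤ 9 ^ N := pow_le_pow_right₀ (by norm_num) hk'
      _ = N * 9 ^ N := by simp
  have hF0 : 0 ≤ (N:ℝ) ^ 2 * (∑ i, (y (some i)) ^ 2) ^ (N - 1) / Ef n ((y none) ^ 2) := by positivity
  have hF1 : (N:ℝ) ^ 2 * (∑ i, (y (some i)) ^ 2) ^ (N - 1) / Ef n ((y none) ^ 2) ≤ N ^ 2 * 9 ^ N := by
    rw [div_le_iff₀ (by linarith)]
    have h3 : (∑ i, (y (some i)) ^ 2) ^ (N - 1) ≤ (9:ℝ) ^ N := by
      calc (∑ i, (y (some i)) ^ 2) ^ (N - 1) ≤ (9:ℝ) ^ (N - 1) := by gcongr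
        _ ≤ 9 ^ N := pow_le_pow_right₀ (by norm_num) (by omega)
    calc (N:ℝ) ^ 2 * (∑ i, (y (some i)) ^ 2) ^ (N - 1) ≤ N ^ 2 * 9 ^ N * 1 := by
          rw [mul_one]; gcongr
      _ ≤ _ := by gcongr
  unfold Xq
  constructor
  · positivity
  · rw [htot]
    unfold CX
    have e1 := mul_le_mul_of_nonneg_right hG1 hA0
    have e2 := mul_le_mul_of_nonneg_right hF1 hB0
    have h91 : (0:ℝ) ≤ N * 9 ^ N := by positivity
    have h92 : (0:ℝ) ≤ N ^ 2 * 9 ^ N := by positivity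
    nlinarith [mul_nonneg h92 hA0, mul_nonneg h91 hB0]

section
variable {N : ℕ} {eps : ℕ → ℝ} {i0 : Fin n}

lemma cont_pd_Wj (h : Good n N eps) (a : Fin n) (o : Option (Fin n)) (j : ℕ) :
    Continuous (pd a (Wj N eps i0 o j)) := (contDiff_pd (contDiff_Wj h o j) a).continuous

lemma cont_lap_Wj (h : Good n N eps) (o : Option (Fin n)) (j : ℕ) :
    Continuous (lap (Wj N eps i0 o j)) := by
  unfold lap
  exact continuous_finsetSum _ fun a _ => (contDiff_pd (contDiff_pd (contDiff_Wj h o j) a) a).continuous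

lemma Wj_dom (h : Good n N eps) (o : Option (Fin n)) (j : ℕ) (x : EuclideanSpace ℝ (Fin n)) :
    |Wj N eps i0 o j x| ≤ 1 * Mj N eps i0 j x := by
  by_cases hx : ‖x - cen i0 j‖ ≤ rad j
  · rw [Mj_in hx, one_mul]
    have := Wj_le (i0 := i0) h o j x
    nlinarith [sq_nonneg (Hf N (rad j * eps j) (x - cen i0 j))]
  · push Not at hx
    rw [supp_W o j x hx, abs_zero, one_mul]
    exact Mj_nonneg h j x

lemma pd_Wj_dom (h : Good n N eps) {K : ℝ} (hK : KB n N K) (a : Fin n) (o : Option (Fin n)) (j : ℕ)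
    (x : EuclideanSpace ℝ (Fin n)) :
    |pd a (Wj N eps i0 o j) x| ≤ K * Mj N eps i0 j x := by
  have hK0 := hK.1
  by_cases hx : ‖x - cen i0 j‖ ≤ rad j
  · rw [Mj_in hx]
    refine (pd_Wj_le h hK a o j x).trans ?_
    gcongr
    nlinarith [sq_nonneg (Hf N (rad j * eps j) (x - cen i0 j) - 1)]
  · push Not at hx
    have hz : pd a (Wj N eps i0 o j) x = 0 := supp_pd (N := N) (eps := eps) (i0 := i0) a o j x hx
    rw [hz, abs_zero]
    have := Mj_nonneg (i0 := i0) h j x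
    positivity

lemma tot_pd_Wj_le (h : Good n N eps) {K : ℝ} (hK : KB n N K) (j : ℕ)
    (x : EuclideanSpace ℝ (Fin n)) :
    ∑ a, ∑ o, (pd a (Wj N eps i0 o j) x) ^ 2
      ≤ n * (n + 1) * K ^ 2 * (Hf N (rad j * eps j) (x - cen i0 j)) ^ 2 := by
  have hH := Hf_nonneg (N := N) (h.lam_pos j) (x - cen i0 j)
  calc ∑ a, ∑ o, (pd a (Wj N eps i0 o j) x) ^ 2
      ≤ ∑ _a : Fin n, ∑ _o : Option (Fin n), (K * Hf N (rad j * eps j) (x - cen i0 j)) ^ 2 := by
        refine Finset.sum_le_sum fun a _ => Finset.sum_le_sum fun o _ => ?_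
        rw [← sq_abs]
        have := pd_Wj_le (i0 := i0) h hK a o j x
        gcongr
    _ = _ := by
      simp
      ring

/-- the Laplacians are dominated -/
lemma lap_Wj_dom (h : Good n N eps) {K : ℝ} (hK : KB n N K) (o : Option (Fin n)) :
    ∃ C : ℝ, 0 ≤ C ∧ ∀ (j : ℕ) (x : EuclideanSpace ℝ (Fin n)),
    |lap (Wj N eps i0 o j) x| ≤ C * Mj N eps i0 j x := by
  have hn2 : 2 ≤ n := by have := h.hN; have := h.hn; omega
  refine ⟨|cc n N o| * (CX N * (n * (n + 1) * K ^ 2)) + 1, ?_, ?_⟩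
  · have := CX_nonneg N
    positivity
  intro j x
  have hCX := CX_nonneg N
  by_cases hx : ‖x - cen i0 j‖ ≤ rad j
  · rw [Mj_in hx]
    set H := Hf N (rad j * eps j) (x - cen i0 j) with hHdef
    have hb := bj_le (i0 := i0) h o j x
    have hb1 : |bj N eps i0 o j x| ≤ 1 := hb.trans (pow_le_one₀ (by norm_num) (by norm_num))
    have heq : lap (Wj N eps i0 o j) x = bj N eps i0 o j x - cc n N o * Wj N eps i0 o j x
      * Xq N (fun o => Wj N eps i0 o j x) (fun a o => pd a (Wj N eps i0 o j) x) := by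
      unfold bj
      rw [bg_eq (h.pos j).ne']
      unfold Wj
      ring
    have hq := sum_Wj_sq_le (i0 := i0) h j x
    have hq0 : 0 ≤ ∑ i, (Wj N eps i0 (some i) j x) ^ 2 := Finset.sum_nonneg fun i _ => sq_nonneg _
    have hX := Xq_bound (N := N) hn2 (y := fun o => Wj N eps i0 o j x) (fun a o => pd a (Wj N eps i0 o j) x)
      (by nlinarith) (by nlinarith [sq_nonneg (Wj N eps i0 none j x)])
    have htot := tot_pd_Wj_le (i0 := i0) h hK j x
    have hW := Wj_le (i0 := i0) h o j x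
    rw [heq]
    have e1 : |cc n N o * Wj N eps i0 o j x
      * Xq N (fun o => Wj N eps i0 o j x) (fun a o => pd a (Wj N eps i0 o j) x)|
        ≤ |cc n N o| * 1 * (CX N * (n * (n + 1) * K ^ 2 * H ^ 2)) := by
      rw [abs_mul, abs_mul, abs_of_nonneg hX.1]
      have hX2 := hX.2.trans (mul_le_mul_of_nonneg_left htot hCX)
      have hX1 := hX.1
      gcongr
    have hA : 0 ≤ |cc n N o| * (CX N * (n * (n + 1) * K ^ 2)) := by positivity
    calc |bj N eps i0 o j x - cc n N o * Wj N eps i0 o j x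
      * Xq N (fun o => Wj N eps i0 o j x) (fun a o => pd a (Wj N eps i0 o j) x)|
        ≤ 1 + |cc n N o| * 1 * (CX N * (n * (n + 1) * K ^ 2 * H ^ 2)) :=
          (abs_sub _ _).trans (add_le_add hb1 e1)
      _ ≤ _ := by nlinarith [sq_nonneg H]
  · push Not at hx
    have hz : lap (Wj N eps i0 o j) x = 0 := supp_lap (N := N) (eps := eps) (i0 := i0) o j x hx
    rw [hz, abs_zero]
    have := Mj_nonneg (i0 := i0) h j x
    positivity

lemma mul_dom {F : ℕ → EuclideanSpace ℝ (Fin n) → ℝ} {C C' : ℝ} {φ : EuclideanSpace ℝ (Fin n) → ℝ}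
    (hC : ∀ j x, |F j x| ≤ C * Mj N eps i0 j x) (hφ : ∀ x, |φ x| ≤ C') (j : ℕ)
    (x : EuclideanSpace ℝ (Fin n)) : |F j x * φ x| ≤ (C * C') * Mj N eps i0 j x := by
  have hC' : 0 ≤ C' := (abs_nonneg _).trans (hφ 0)
  rw [abs_mul]
  calc |F j x| * |φ x| ≤ (C * Mj N eps i0 j x) * C' := by
        have := (abs_nonneg _).trans (hC j x)
        gcongr
        · exact hC j x
        · exact hφ x
    _ = _ := by ring

lemma exists_bd {φ : EuclideanSpace ℝ (Fin n) → ℝ} (hφ : Continuous φ) (hc : HasCompactSupport φ) :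
    ∃ C, ∀ x, |φ x| ≤ C := by
  obtain ⟨C, hC⟩ := hc.exists_bound_of_continuous hφ
  exact ⟨C, fun x => by simpa using hC x⟩

/-- weak gradient identity, on the whole space -/
lemma weak_grad (h : Good n N eps) (o : Option (Fin n)) (a : Fin n)
    {φ : EuclideanSpace ℝ (Fin n) → ℝ} (hφ : ContDiff ℝ ∞ φ) (hc : HasCompactSupport φ) :
    ∫ x, ws N eps i0 o x * pd a φ x = - ∫ x, gs N eps i0 a o x * φ x := by
  obtain ⟨K, hK⟩ : ∃ K, KB n N K := pd_Vf_bound h.hN h.hn
  have hpφ : Continuous (pd a φ) := (contDiff_pd hφ a).continuous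
  have hcp : HasCompactSupport (pd a φ) :=
    (hc.fderiv (𝕜 := ℝ)).comp_left (g := fun L : EuclideanSpace ℝ (Fin n) →L[ℝ] ℝ => L (EuclideanSpace.single a 1)) (by simp)
  obtain ⟨C1, hC1⟩ := exists_bd hpφ hcp
  obtain ⟨C2, hC2⟩ := exists_bd hφ.continuous hc
  have s1 := (sum_dom (i0 := i0) h (F := fun j x => Wj N eps i0 o j x * pd a φ x)
    (fun j => (contDiff_Wj h o j).continuous.mul hpφ) (fun j x => mul_dom (Wj_dom h o) hC1 j x)).2.2
  have s2 := (sum_dom (i0 := i0) h (F := fun j x => pd a (Wj N eps i0 o j) x * φ x)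
    (fun j => (cont_pd_Wj h a o j).mul hφ.continuous) (fun j x => mul_dom (pd_Wj_dom h hK a o) hC2 j x)).2.2
  have e : ∀ j, ∫ x, Wj N eps i0 o j x * pd a φ x = - ∫ x, pd a (Wj N eps i0 o j) x * φ x :=
    fun j => ibp (contDiff_Wj h o j) hφ hc a
  simp_rw [e] at s1
  have e1 := s1.unique s2.neg
  unfold ws gs
  simp_rw [← tsum_mul_right]
  exact e1

/-- weak Laplacian identity, on the whole space -/
lemma weak_lap (h : Good n N eps) (o : Option (Fin n))
    {φ : EuclideanSpace ℝ (Fin n) → ℝ} (hφ : ContDiff ℝ ∞ φ) (hc : HasCompactSupport φ) :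
    (∀ a, Integrable (fun x => gs N eps i0 a o x * pd a φ x)) ∧
    Integrable (fun x => (∑' j, lap (Wj N eps i0 o j) x) * φ x) ∧
    ∑ a, ∫ x, gs N eps i0 a o x * pd a φ x = - ∫ x, (∑' j, lap (Wj N eps i0 o j) x) * φ x := by
  obtain ⟨K, hK⟩ : ∃ K, KB n N K := pd_Vf_bound h.hN h.hn
  obtain ⟨CL, hCL0, hCL⟩ := lap_Wj_dom (i0 := i0) h hK o
  have hpφ : ∀ a, Continuous (pd a φ) := fun a => (contDiff_pd hφ a).continuous
  have hcp : ∀ a, HasCompactSupport (pd a φ) := fun a =>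
    (hc.fderiv (𝕜 := ℝ)).comp_left (g := fun L : EuclideanSpace ℝ (Fin n) →L[ℝ] ℝ => L (EuclideanSpace.single a 1)) (by simp)
  choose C1 hC1 using fun a => exists_bd (hpφ a) (hcp a)
  obtain ⟨C2, hC2⟩ := exists_bd hφ.continuous hc
  have s1 := fun a => (sum_dom (i0 := i0) h (F := fun j x => pd a (Wj N eps i0 o j) x * pd a φ x)
    (fun j => (cont_pd_Wj h a o j).mul (hpφ a)) (fun j x => mul_dom (pd_Wj_dom h hK a o) (hC1 a) j x))
  have s2 := (sum_dom (i0 := i0) h (F := fun j x => lap (Wj N eps i0 o j) x * φ x)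
    (fun j => (cont_lap_Wj h o j).mul hφ.continuous) (fun j x => mul_dom hCL hC2 j x))
  have supp1 : ∀ a, Supp i0 (fun j x => pd a (Wj N eps i0 o j) x * pd a φ x) := by
    intro a j x hx
    have := supp_pd (N := N) (eps := eps) (i0 := i0) a o j x hx
    simp only [this, zero_mul]
  have supp2 : Supp i0 (fun j x => lap (Wj N eps i0 o j) x * φ x) := by
    intro j x hx
    have := supp_lap (N := N) (eps := eps) (i0 := i0) o j x hx
    simp only [this, zero_mul]
  refine ⟨?_, ?_, ?_⟩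
  · intro a
    unfold gs
    simp_rw [← tsum_mul_right]
    exact integrable_tsum_supp (supp1 a) (s1 a).1 (s1 a).2.1
  · simp_rw [← tsum_mul_right]
    exact integrable_tsum_supp supp2 s2.1 s2.2.1
  · unfold gs
    simp_rw [← tsum_mul_right]
    have t1 := hasSum_sum (s := Finset.univ) fun a _ => (s1 a).2.2
    have e : ∀ j, ∑ a, ∫ x, pd a (Wj N eps i0 o j) x * pd a φ x = - ∫ x, lap (Wj N eps i0 o j) x * φ x := by
      intro j
      have e0 : ∀ a, ∫ x, pd a (Wj N eps i0 o j) x * pd a φ x = - ∫ x, pd a (pd a (Wj N eps i0 o j)) x * φ x :=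
        fun a => ibp (contDiff_pd (contDiff_Wj h o j) a) hφ hc a
      simp_rw [e0]
      rw [Finset.sum_neg_distrib, ← integral_finsetSum]
      · unfold lap
        simp_rw [Finset.sum_mul]
      · intro a _
        exact ((contDiff_pd (contDiff_pd (contDiff_Wj h o j) a) a).continuous.mul
          hφ.continuous).integrable_of_hasCompactSupport hc.mul_left
    simp_rw [e] at t1
    exact t1.unique s2.2.2.neg

end

end Pool.Agent.Lib.MP_105042_an
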